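import Pool.Agent.Helper39.CC.Final

/-!
# Explicit conditions for the fixation of the cyclic cellular automaton
-/

open MeasureTheory Set ProbabilityTheory
open Pool.Agent.Helper94.CCA Pool.Agent.Helper99.CA

namespace Pool.Agent.Helper39.CC

/-- Fixation of the CCA for `κ (θ - 1) ≥ 15 d`. -/
theorem cca_fix_fifteen {V : Type*} (G : SimpleGraph V) (hG : G.IsTree) (d : ℕ) (hd : 1 ≤ d)
    (hdeg : ∀ v, (G.neighborSet v).ncard = d + 1) (κ θ : ℕ) [NeZero κ] (hκ : 3 ≤ κ) (hθ : 2 ≤ θ)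
    (h : 15 * d ≤ κ * (θ - 1)) (ρ : V) :
    law V κ {ω | Fluct (ccaStep G κ θ) ω ρ} = 0 := by
  refine cca_fix G hG d hd hdeg κ θ hκ (by omega) (x := 9) (r := 3 / 10) (by norm_num)
    (by norm_num) (by norm_num) ?_ ρ
  have hκ0 : (0 : ℝ) < κ := by exact_mod_cast (by omega : 0 < κ)
  obtain ⟨n, rfl⟩ : ∃ n, θ = n + 2 := ⟨θ - 2, by omega⟩
  rw [show n + 2 - 1 = n + 1 by omega] at h ⊢
  have hP : Psi 9 (3 / 10) ≤ 144 / 10 := by
    unfold Psi
    norm_num
  have hP0 : 0 ≤ Psi 9 (3 / 10) := by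
    unfold Psi
    norm_num
  have h2 : (d : ℝ) * Psi 9 (3 / 10) / κ ≤ (n + 1) * (96 / 100) := by
    rw [div_le_iff₀ hκ0]
    have h3 : (15 * d : ℝ) ≤ κ * (n + 1) := by exact_mod_cast h
    have h4 : (0 : ℝ) ≤ d := by positivity
    nlinarith
  have h3 : Real.exp (96 / 100) ≤ 27 / 10 := by
    have e1 := Real.exp_one_lt_d9
    have e2 : Real.exp (96 / 100) * (1 + 4 / 100) ≤ Real.exp 1 := by
      have e3 : Real.exp 1 = Real.exp (96 / 100) * Real.exp (4 / 100) := by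
        rw [← Real.exp_add]
        norm_num
      rw [e3]
      apply mul_le_mul_of_nonneg_left _ (Real.exp_pos _).le
      have := Real.add_one_le_exp (4 / 100 : ℝ)
      linarith
    nlinarith
  calc Real.exp (d * Psi 9 (3 / 10) / κ) ≤ Real.exp ((n + 1 : ℕ) * (96 / 100)) := by
        apply Real.exp_le_exp.2
        push_cast
        exact h2
    _ = Real.exp (96 / 100) ^ (n + 1) := Real.exp_nat_mul _ _
    _ ≤ (27 / 10) ^ (n + 1) := pow_le_pow_left₀ (Real.exp_pos _).le h3 _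
    _ = 27 / 10 * (27 / 10) ^ n := by rw [pow_succ]; ring
    _ ≤ 27 / 10 * 9 ^ n := by
        apply mul_le_mul_of_nonneg_left _ (by norm_num)
        exact pow_le_pow_left₀ (by norm_num) (by norm_num) n
    _ = 3 / 10 * 9 ^ (n + 1) := by rw [pow_succ]; ring

/-- Fixation of the CCA for large thresholds up to the critical line. -/
theorem cca_fix_sharp {ε : ℝ} (hε : 0 < ε) : ∃ θ₀ : ℕ, ∀ (θ : ℕ), θ₀ ≤ θ →
    ∀ {V : Type*} (G : SimpleGraph V), G.IsTree → ∀ d : ℕ, 1 ≤ d →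
    (∀ v, (G.neighborSet v).ncard = d + 1) → ∀ (κ : ℕ) [NeZero κ], 3 ≤ κ →
    (1 + ε) * d ≤ κ * θ → ∀ ρ : V,
    law V κ {ω | Fluct (ccaStep G κ θ) ω ρ} = 0 := by
  set x : ℝ := 1 + ε / 2 with hx
  have hx1 : 1 < x := by rw [hx]; linarith
  have hx0 : 0 < x := by linarith
  have hlog : (x - 1) / (1 + ε) < Real.log x := by
    have h1 := Real.one_sub_inv_le_log_of_pos hx0
    have h2 : 1 - x⁻¹ = (x - 1) / x := by field_simp
    rw [h2] at h1
    refine lt_of_lt_of_le ?_ h1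
    apply div_lt_div_of_pos_left (by linarith) hx0
    rw [hx]
    linarith
  -- choose `r`
  have hcont : Filter.Tendsto (fun r : ℝ => Psi x r / (1 + ε)) (nhds 0)
      (nhds ((x - 1) / (1 + ε))) := by
    have h1 : ContinuousAt (fun r : ℝ => Psi x r / (1 + ε)) 0 := by
      unfold Psi
      have h2 : ContinuousAt (fun r : ℝ => (1 - r) ^ 2) 0 := by fun_prop
      have h3 : ContinuousAt (fun r : ℝ => 1 - r) 0 := by fun_prop
      have h4 : ContinuousAt (fun r : ℝ => r / (1 - r) ^ 2) 0 :=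
        continuousAt_id.div h2 (by norm_num)
      have h5 : ContinuousAt (fun r : ℝ => 1 / (1 - r) ^ 2) 0 :=
        continuousAt_const.div h2 (by norm_num)
      have h6 : ContinuousAt (fun r : ℝ => (1 / (1 - r) ^ 2 - 1) / (1 - r)) 0 :=
        (h5.sub continuousAt_const).div h3 (by norm_num)
      exact ((continuousAt_const.mul (continuousAt_const.add h4)).add h6).div_const _
    have h2 : Psi x 0 / (1 + ε) = (x - 1) / (1 + ε) := by
      unfold Psi
      norm_num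
    rw [← h2]
    exact h1.tendsto
  obtain ⟨δ, hδ1, hδ2⟩ := exists_between hlog
  have hev : ∀ᶠ r in nhdsWithin (0 : ℝ) (Ioi 0), Psi x r / (1 + ε) < δ ∧ r < 1 := by
    have h1 := hcont.mono_left (nhdsWithin_le_nhds (s := Ioi (0 : ℝ)))
    have h2 : ∀ᶠ r in nhdsWithin (0 : ℝ) (Ioi 0), r < 1 :=
      nhdsWithin_le_nhds (Iio_mem_nhds one_pos)
    exact (h1.eventually_lt_const hδ1).and h2
  obtain ⟨r, ⟨hr1, hr2⟩, hr0⟩ := (hev.and self_mem_nhdsWithin).exists
  have hr0' : 0 < r := hr0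
  obtain ⟨θ₀, hθ₀⟩ := exists_nat_gt ((Real.log x - Real.log r) / (Real.log x - δ))
  refine ⟨θ₀ + 1, fun θ hθ V G hG d hd hdeg κ _ hκ h ρ => ?_⟩
  have hκ0 : (0 : ℝ) < κ := by exact_mod_cast (by omega : 0 < κ)
  refine cca_fix G hG d hd hdeg κ θ hκ (by omega) hx1 hr0' hr2 ?_ ρ
  have hPsi0 : 0 ≤ Psi x r := by
    rw [Psi_eq hx1]
    have h1 := Bc_nonneg hx1 hr0' hr2
    have h2 := C_nonneg hr0' hr2
    nlinarith
  have h1 : (d : ℝ) * Psi x r / κ ≤ θ * (Psi x r / (1 + ε)) := by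
    rw [div_le_iff₀ hκ0, ← mul_div_assoc, div_mul_eq_mul_div, le_div_iff₀ (by linarith)]
    nlinarith
  have h2 : (θ : ℝ) * (Psi x r / (1 + ε)) ≤ θ * δ :=
    mul_le_mul_of_nonneg_left hr1.le (by positivity)
  have h3 : (θ : ℝ) * δ ≤ Real.log r + (θ - 1) * Real.log x := by
    have h4 : 0 < Real.log x - δ := by linarith
    rw [div_lt_iff₀ h4] at hθ₀
    have h5 : (θ₀ : ℝ) ≤ θ := by exact_mod_cast (by omega : θ₀ ≤ θ)
    nlinarith
  have h6 : r * x ^ (θ - 1) = Real.exp (Real.log r + (θ - 1) * Real.log x) := by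
    rw [Real.exp_add, Real.exp_log hr0']
    congr 1
    have h7 : ((θ : ℝ) - 1) = ((θ - 1 : ℕ) : ℝ) := by
      rw [Nat.cast_sub (by omega)]
      simp
    rw [h7, Real.exp_nat_mul, Real.exp_log hx0]
  rw [h6]
  exact Real.exp_le_exp.2 (h1.trans (h2.trans h3))

end Pool.Agent.Helper39.CC
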