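import Pool.Agent.Helper39.CC.Prob
import Pool.Agent.Helper99.CA.Move

/-!
# Fixation of the cyclic cellular automaton
-/

open MeasureTheory Set ProbabilityTheory
open Pool.Agent.Helper94.CCA Pool.Agent.Helper99.CA

namespace Pool.Agent.Helper39.CC

variable {d κ : ℕ} [NeZero κ]

lemma cM_congr {y z : ℕ → Fin κ} {T : ℕ} (h : ∀ s ≤ T, y s = z s) : ∀ t ≤ T, cM y t = cM z t := by
  intro t
  induction t with
  | zero => intro _; simp [cM]
  | succ t ih =>
    intro ht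
    rw [cM_succ, cM_succ, ih (by omega), h (t + 1) ht, h t (by omega)]

/-- the probability of many moves -/
lemma moves_le {θ : ℕ} {x ρ : ℝ} (hd : 1 ≤ d) (hκ : 3 ≤ κ) (hθ : 1 ≤ θ) (hx : 1 < x) (h0 : 0 < ρ)
    (h1 : ρ < 1) (hcrit : Real.exp (d * Psi x ρ / κ) ≤ ρ * x ^ (θ - 1)) {u : Vert d}
    (hu : u ≠ root) (k T : ℕ) :
    (law (Vert d) κ).real
      {ω | k ≤ cM (fun s => (ccaL (wordsLab d hd) κ θ)^[s] ω u) T} ≤ ρ ^ k / (1 - ρ) := by
  have hr : 0 < 1 - ρ := by linarith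
  have hκ0 : (0 : ℝ) < κ := by exact_mod_cast (by omega : 0 < κ)
  obtain ⟨b, hb⟩ : ∃ b, u.1.head? = some b := by
    rcases eq_root_or u with h | h
    · exact absurd h hu
    · exact h
  have hsub : {ω | k ≤ cM (fun s => (ccaL (wordsLab d hd) κ θ)^[s] ω u) T} ⊆
      ⋃ c ∈ (Finset.univ : Finset (Fin κ)), ⋃ j ∈ Finset.range (T + 1),
        evt θ T u c (k + j) 0 := by
    intro ω hω
    change k ≤ cM (fun s => (ccaL (wordsLab d hd) κ θ)^[s] ω u) T at hω
    have h2 := hist_actual (θ := θ) (ω := ω) hd T u (wnb u b) b hb rfl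
    have h3 := cM_congr h2 T (le_refl T)
    have h4 := cM_le (fun s => (ccaL (wordsLab d hd) κ θ)^[s] ω u) T
    rw [mem_iUnion₂]
    refine ⟨ω u, Finset.mem_univ _, ?_⟩
    rw [mem_iUnion₂]
    refine ⟨cM (fun s => (ccaL (wordsLab d hd) κ θ)^[s] ω u) T - k,
      Finset.mem_range.2 (by omega), rfl,
      (fun s => (ccaL (wordsLab d hd) κ θ)^[s] ω (wnb u b)), ?_, Nat.zero_le _⟩
    rw [h3]
    omega
  refine (measureReal_mono hsub (measure_ne_top _ _)).trans ?_
  refine (measureReal_biUnion_finset_le _ _).trans ?_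
  have h2 : ∀ c ∈ (Finset.univ : Finset (Fin κ)),
      (law (Vert d) κ).real (⋃ j ∈ Finset.range (T + 1), evt θ T u c (k + j) 0) ≤
        ρ ^ k / (1 - ρ) / κ := by
    intro c _
    refine (measureReal_biUnion_finset_le _ _).trans ?_
    have h3 : ∀ j ∈ Finset.range (T + 1), (law (Vert d) κ).real (evt θ T u c (k + j) 0) ≤
        ρ ^ k / κ * ρ ^ j := by
      intro j _
      refine (evt_le hκ hθ hx h0 h1 hcrit T u hu c (k + j) 0).trans (le_of_eq ?_)
      rw [pow_zero, div_one, pow_add]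
      ring
    refine (Finset.sum_le_sum h3).trans ?_
    rw [← Finset.mul_sum]
    have h4 : ∑ j ∈ Finset.range (T + 1), ρ ^ j ≤ 1 / (1 - ρ) := by
      have := geom_le h0 h1 (T + 1)
      have h5 : ∑ n ∈ Finset.range (T + 1), ρ ^ (n + 1) =
          ρ * ∑ j ∈ Finset.range (T + 1), ρ ^ j := by
        rw [Finset.mul_sum]
        exact Finset.sum_congr rfl fun j _ => by ring
      rw [h5] at this
      rw [le_div_iff₀ hr] at this ⊢
      nlinarith
    calc ρ ^ k / κ * ∑ j ∈ Finset.range (T + 1), ρ ^ j ≤ ρ ^ k / κ * (1 / (1 - ρ)) :=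
          mul_le_mul_of_nonneg_left h4 (by positivity)
      _ = ρ ^ k / (1 - ρ) / κ := by ring
  refine (Finset.sum_le_sum h2).trans (le_of_eq ?_)
  rw [Finset.sum_const, Finset.card_univ, Fintype.card_fin, nsmul_eq_mul]
  field_simp

theorem fix_child {θ : ℕ} {x ρ : ℝ} (hd : 1 ≤ d) (hκ : 3 ≤ κ) (hθ : 1 ≤ θ) (hx : 1 < x)
    (h0 : 0 < ρ) (h1 : ρ < 1) (hcrit : Real.exp (d * Psi x ρ / κ) ≤ ρ * x ^ (θ - 1)) {u : Vert d}
    (hu : u ≠ root) :
    law (Vert d) κ {ω | Fluct (ccaL (wordsLab d hd) κ θ) ω u} = 0 := by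
  set F := ccaL (wordsLab d hd) κ θ with hF
  have hr : 0 < 1 - ρ := by linarith
  have hb : ∀ k : ℕ, law (Vert d) κ {ω | Fluct F ω u} ≤ ENNReal.ofReal (ρ ^ k / (1 - ρ)) := by
    intro k
    have hsub : {ω | Fluct F ω u} ⊆ ⋃ T : ℕ, {ω | k ≤ cM (fun s => F^[s] ω u) T} := by
      intro ω hω
      have h2 : (Set.ofPred fun t => F^[t + 1] ω u ≠ F^[t] ω u).Infinite := hω
      rw [mem_iUnion]
      refine ⟨Nat.nth (fun t => F^[t + 1] ω u ≠ F^[t] ω u) k, ?_⟩
      have h3 := Nat.count_nth_of_infinite h2 k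
      change k ≤ cM (fun s => F^[s] ω u) (Nat.nth (fun t => F^[t + 1] ω u ≠ F^[t] ω u) k)
      unfold cM
      exact h3.symm.le
    refine (measure_mono hsub).trans ?_
    have hmono : Monotone fun T : ℕ => {ω : Vert d → Fin κ | k ≤ cM (fun s => F^[s] ω u) T} := by
      intro s t hst ω hω
      exact le_trans hω (cM_mono _ hst)
    rw [hmono.measure_iUnion]
    refine iSup_le fun T => ?_
    have h4 := moves_le hd hκ hθ hx h0 h1 hcrit hu k T
    rw [← hF] at h4
    rw [← ofReal_measureReal]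
    exact ENNReal.ofReal_le_ofReal h4
  have hlim : Filter.Tendsto (fun k : ℕ => ENNReal.ofReal (ρ ^ k / (1 - ρ))) Filter.atTop
      (nhds 0) := by
    have h2 : Filter.Tendsto (fun k : ℕ => ρ ^ k / (1 - ρ)) Filter.atTop (nhds 0) := by
      have := (tendsto_pow_atTop_nhds_zero_of_lt_one h0.le h1).div_const (1 - ρ)
      simpa using this
    have h3 := ENNReal.tendsto_ofReal h2
    simpa using h3
  exact le_antisymm (ge_of_tendsto' hlim hb) zero_le

/-- The criterion for the fixation of the CCA on a regular tree. -/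
theorem cca_fix {V : Type*} (G : SimpleGraph V) (hG : G.IsTree) (d : ℕ) (hd : 1 ≤ d)
    (hdeg : ∀ v, (G.neighborSet v).ncard = d + 1) (κ θ : ℕ) [NeZero κ] (hκ : 3 ≤ κ) (hθ : 1 ≤ θ)
    {x r : ℝ} (hx : 1 < x) (h0 : 0 < r) (h1 : r < 1)
    (hcrit : Real.exp (d * Psi x r / κ) ≤ r * x ^ (θ - 1)) (ρ : V) :
    law V κ {ω | Fluct (ccaStep G κ θ) ω ρ} = 0 := by
  rw [(transfer G hG d hd hdeg κ θ ρ).1]
  have hch : (ch (root : Vert d)).Nonempty := by
    rw [← Finset.card_pos, card_ch_root]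
    omega
  obtain ⟨a, ha⟩ := hch
  have hne := child_ne_root ha
  obtain ⟨σ, hσ, hσ2⟩ := (wordsLab d hd).trans root (wnb root a)
  have h2 := fix_child hd hκ hθ hx h0 h1 hcrit hne
  have h3 : {ω : Vert d → Fin κ | Fluct (ccaL (wordsLab d hd) κ θ) ω (wnb root a)} =
      (fun ω : Vert d → Fin κ => ω ∘ σ) ⁻¹'
        {ω | Fluct (ccaL (wordsLab d hd) κ θ) ω root} := by
    ext ω
    simp only [mem_ofPred_eq, mem_preimage]
    rw [fluct_comp (equi_ccaL (wordsLab d hd) κ θ) hσ ω root, hσ2]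
  rw [h3, (law_inv (κ := κ) σ).measure_preimage
    (measurableSet_fluct (measurable_ccaL (wordsLab d hd) κ θ) root).nullMeasurableSet] at h2
  exact h2

end Pool.Agent.Helper39.CC
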