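import Pool.Agent.Helper39.CC.Pair
import Pool.Agent.Helper99.CA.Tree

/-!
# The cyclic cellular automaton of a subtree with a prescribed trajectory of the parent
-/

open MeasureTheory Set ProbabilityTheory
open Pool.Agent.Helper94.CCA Pool.Agent.Helper99.CA

namespace Pool.Agent.Helper39.CC

variable {d κ : ℕ} [NeZero κ]

/-- the next colour of a vertex with colour `c`, whose parent has colour `p` and `n` of whose
children have the colour `c + 1` -/
def nxt (θ : ℕ) (c p : Fin κ) (n : ℕ) : Fin κ :=
  if θ ≤ (if p = c + 1 then 1 else 0) + n then c + 1 else c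

/-- the trajectory of `u` until time `t` (constant afterwards) if its parent has the
trajectory `g` -/
def hist (θ : ℕ) (ω : Vert d → Fin κ) : ℕ → Vert d → (ℕ → Fin κ) → ℕ → Fin κ
  | 0, u, _ => fun _ => ω u
  | t + 1, u, g => fun s =>
    if s ≤ t then hist θ ω t u g s
    else nxt θ (hist θ ω t u g t) (g t)
      ((ch u).filter fun a =>
        hist θ ω t (wnb u a) (hist θ ω t u g) t = hist θ ω t u g t + 1).card

variable {θ : ℕ} {ω : Vert d → Fin κ}

lemma hist_of_le {t s : ℕ} (h : s ≤ t) (u : Vert d) (g : ℕ → Fin κ) :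
    hist θ ω (t + 1) u g s = hist θ ω t u g s := by
  simp only [hist, if_pos h]

lemma hist_of_gt {t s : ℕ} (h : t < s) (u : Vert d) (g : ℕ → Fin κ) :
    hist θ ω (t + 1) u g s = nxt θ (hist θ ω t u g t) (g t)
      ((ch u).filter fun a =>
        hist θ ω t (wnb u a) (hist θ ω t u g) t = hist θ ω t u g t + 1).card := by
  simp only [hist, if_neg (not_le.2 h)]

lemma hist_zero (t : ℕ) (u : Vert d) (g : ℕ → Fin κ) : hist θ ω t u g 0 = ω u := by
  induction t with
  | zero => rfl
  | succ t ih => rw [hist_of_le (Nat.zero_le t), ih]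

lemma hist_const {t s : ℕ} (h : t ≤ s) (u : Vert d) (g : ℕ → Fin κ) :
    hist θ ω t u g s = hist θ ω t u g t := by
  cases t with
  | zero => rfl
  | succ t => rw [hist_of_gt (by omega), hist_of_gt (Nat.lt_succ_self t)]

lemma hist_stable {s t t' : ℕ} (h : s ≤ t) (h' : t ≤ t') (u : Vert d) (g : ℕ → Fin κ) :
    hist θ ω t' u g s = hist θ ω t u g s := by
  induction t', h' using Nat.le_induction with
  | base => rfl
  | succ n hn ih => rw [hist_of_le (h.trans hn), ih]

lemma hist_congr (t : ℕ) : ∀ (u : Vert d) {g g' : ℕ → Fin κ}, (∀ s < t, g s = g' s) →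
    hist θ ω t u g = hist θ ω t u g' := by
  induction t with
  | zero => intro u g g' _; rfl
  | succ t ih =>
    intro u g g' h
    have h1 : hist θ ω t u g = hist θ ω t u g' := ih u fun s hs => h s (hs.trans (Nat.lt_succ_self t))
    funext s
    simp only [hist, h1, h t (Nat.lt_succ_self t)]

/-- the children see the whole trajectory of `u` -/
lemma hist_child {t T : ℕ} (h : t ≤ T) (u w : Vert d) (g : ℕ → Fin κ) :
    hist θ ω t w (hist θ ω t u g) = hist θ ω t w (hist θ ω T u g) :=
  hist_congr t w fun _ hs => (hist_stable hs.le h u g).symm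

lemma hist_step {t T T' : ℕ} (h : t < T) (h' : t ≤ T') (u : Vert d) (g : ℕ → Fin κ) :
    hist θ ω T u g (t + 1) = nxt θ (hist θ ω T u g t) (g t)
      ((ch u).filter fun a =>
        hist θ ω T' (wnb u a) (hist θ ω T u g) t = hist θ ω T u g t + 1).card := by
  rw [hist_stable (le_refl (t + 1)) h, hist_of_gt (Nat.lt_succ_self t),
    hist_stable (le_refl t) h.le u g]
  congr 2
  refine Finset.filter_congr fun a _ => ?_
  rw [hist_child h.le, hist_stable (le_refl t) h']

lemma nxt_eq_or (θ : ℕ) (c p : Fin κ) (n : ℕ) : nxt θ c p n = c ∨ nxt θ c p n = c + 1 := by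
  unfold nxt
  split_ifs <;> simp

lemma hist_legal (T : ℕ) (u : Vert d) (g : ℕ → Fin κ) : Legal (hist θ ω T u g) := by
  intro t
  by_cases h : t < T
  · rw [hist_step h (le_refl t)]
    exact nxt_eq_or _ _ _ _
  · left
    rw [hist_const (by omega), hist_const (not_lt.1 h)]

/-- the trajectory depends on finitely many descendants -/
lemma LDep.pair {S T : Type*} {v : Vert d} {X : (Vert d → Fin κ) → S}
    {Y : (Vert d → Fin κ) → T} (hX : LDep v X) (hY : LDep v Y) :
    LDep v (fun ω => (X ω, Y ω)) := by
  classical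
  obtain ⟨K, h1, h2⟩ := hX
  obtain ⟨K', h1', h2'⟩ := hY
  refine ⟨K ∪ K', ?_, ?_⟩
  · intro u hu
    rcases Finset.mem_union.1 hu with hu | hu
    · exact h1 u hu
    · exact h1' u hu
  · intro ω ω' hω
    exact Prod.ext (h2 ω ω' fun v hv => hω v (Finset.mem_union_left _ hv))
      (h2' ω ω' fun v hv => hω v (Finset.mem_union_right _ hv))

lemma hist_ldep (θ T : ℕ) : ∀ u : Vert d, LDep (κ := κ) u (fun ω => hist θ ω T u) := by
  induction T with
  | zero =>
    intro u
    exact (LDep.self u).comp fun c => (fun _ _ => c : (ℕ → Fin κ) → ℕ → Fin κ)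
  | succ T ih =>
    intro u
    have h1 := LDep.children u (fun a ω => hist θ ω T (wnb u a)) (fun a _ => ih (wnb u a))
    have h2 := LDep.pair (ih u) h1
    obtain ⟨K, h3, h4⟩ := h2
    refine ⟨K, h3, fun ω ω' hω => ?_⟩
    have h5 := h4 ω ω' hω
    simp only [Prod.mk.injEq] at h5
    obtain ⟨h6, h7, h8⟩ := h5
    funext g s
    simp only [hist, h6]
    congr 3
    refine Finset.filter_congr fun a ha => ?_
    have h9 := congrFun h8 ⟨a, ha⟩
    simp only at h9
    rw [h9]

/-- the actual dynamics -/
theorem hist_actual (hd : 1 ≤ d) (T : ℕ) : ∀ (u p : Vert d) (b : Fin (d + 1)),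
    u.1.head? = some b → p = wnb u b → ∀ s ≤ T,
      hist θ ω T u (fun s => (ccaL (wordsLab d hd) κ θ)^[s] ω p) s =
        (ccaL (wordsLab d hd) κ θ)^[s] ω u := by
  induction T with
  | zero =>
    intro u p b _ _ s hs
    obtain rfl : s = 0 := by omega
    rfl
  | succ T ih =>
    intro u p b hb hp s hs
    rcases Nat.lt_or_ge s (T + 1) with h | h
    · rw [hist_of_le (by omega)]
      exact ih u p b hb hp s (by omega)
    · obtain rfl : s = T + 1 := by omega
      rw [hist_of_gt (Nat.lt_succ_self T), ih u p b hb hp T (le_refl T)]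
      rw [Function.iterate_succ_apply' _ T ω]
      set F := ccaL (wordsLab d hd) κ θ with hF
      have h1 : ∀ a ∈ ch u, hist θ ω T (wnb u a) (hist θ ω T u fun s => F^[s] ω p) T =
          F^[T] ω (wnb u a) := by
        intro a ha
        rw [hist_congr T (wnb u a) (g' := fun s => F^[s] ω u)
          fun s hs => ih u p b hb hp s hs.le]
        exact ih (wnb u a) u a (head_child ha) (wnb_wnb u a).symm T (le_refl T)
      rw [Finset.filter_congr (q := fun a => F^[T] ω (wnb u a) = F^[T] ω u + 1)
        (fun a ha => by rw [h1 a ha])]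
      have h2 : F (F^[T] ω) u = if θ ≤ (Finset.univ.filter fun a =>
          F^[T] ω (wnb u a) = F^[T] ω u + 1).card then F^[T] ω u + 1 else F^[T] ω u := by
        rw [hF]
        rfl
      rw [h2]
      unfold nxt
      have h3 : (Finset.univ.filter fun a => F^[T] ω (wnb u a) = F^[T] ω u + 1).card =
          (if F^[T] ω p = F^[T] ω u + 1 then 1 else 0) +
            ((ch u).filter fun a => F^[T] ω (wnb u a) = F^[T] ω u + 1).card := by
        have h4 : (Finset.univ : Finset (Fin (d + 1))) = insert b (ch u) := by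
          rw [ch_eq_erase hb, Finset.insert_erase (Finset.mem_univ b)]
        rw [h4, Finset.filter_insert, hp]
        have hb' : b ∉ ch u := by
          rw [mem_ch, not_not]
          exact hb
        split_ifs
        · rw [Finset.card_insert_of_notMem (by simp [hb'])]
          ring
        · ring
      rw [h3]

end Pool.Agent.Helper39.CC
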