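import Pool.Agent.Helper39.CC.Pair

/-!
# The numerical estimate behind the recursion
-/

open Finset Real

namespace Pool.Agent.Helper39.CC

/-- the exponent -/
noncomputable def Psi (x ρ : ℝ) : ℝ :=
  (x - 1) * (1 + ρ / (1 - ρ) ^ 2) + (1 / (1 - ρ) ^ 2 - 1) / (1 - ρ)

/-- the summand for the initial relative position `e + 1` -/
noncomputable def trm (κ k T : ℕ) (x ρ : ℝ) (e : ℕ) : ℝ :=
  x ^ psi κ k e 0 + ∑ n ∈ range T,
    (x ^ psi κ k e (n + 1) - x ^ psi κ k e n) * ((ρ / x) ^ (n + 1) / (1 - ρ))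

variable {x ρ : ℝ}

lemma geom_le (h0 : 0 < ρ) (h1 : ρ < 1) (T : ℕ) : ∑ n ∈ range T, ρ ^ (n + 1) ≤ ρ / (1 - ρ) := by
  have h : ∀ T : ℕ, (∑ n ∈ range T, ρ ^ (n + 1)) * (1 - ρ) = ρ - ρ ^ (T + 1) := by
    intro T
    induction T with
    | zero => simp
    | succ T ih => rw [Finset.sum_range_succ, add_mul, ih]; ring
  rw [le_div_iff₀ (by linarith), h T]
  have := pow_pos h0 (T + 1)
  linarith

lemma geom2_le (h0 : 0 < ρ) (h1 : ρ < 1) (T : ℕ) :
    ∑ n ∈ range T, ((n : ℝ) + 2) * ρ ^ (n + 1) ≤ 1 / (1 - ρ) ^ 2 - 1 := by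
  have h : ∀ T : ℕ, (∑ n ∈ range T, ((n : ℝ) + 2) * ρ ^ (n + 1) + 1) * (1 - ρ) ^ 2 =
      1 - ((T : ℝ) + 2) * ρ ^ (T + 1) + ((T : ℝ) + 1) * ρ ^ (T + 2) := by
    intro T
    induction T with
    | zero => simp; ring
    | succ T ih =>
      rw [Finset.sum_range_succ]
      have : (∑ n ∈ range T, ((n : ℝ) + 2) * ρ ^ (n + 1) + ((T : ℝ) + 2) * ρ ^ (T + 1) + 1) *
          (1 - ρ) ^ 2 = (∑ n ∈ range T, ((n : ℝ) + 2) * ρ ^ (n + 1) + 1) * (1 - ρ) ^ 2 +
          ((T : ℝ) + 2) * ρ ^ (T + 1) * (1 - ρ) ^ 2 := by ring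
      rw [this, ih]
      push_cast
      ring
  have hp : 0 < (1 - ρ) ^ 2 := by
    have : 0 < 1 - ρ := by linarith
    positivity
  rw [le_sub_iff_add_le, le_div_iff₀ hp, h T]
  have h2 : ((T : ℝ) + 1) * ρ ^ (T + 2) ≤ ((T : ℝ) + 2) * ρ ^ (T + 1) := by
    rw [pow_succ ρ (T + 1)]
    have h3 := pow_pos h0 (T + 1)
    have h4 : (0 : ℝ) ≤ T := by positivity
    nlinarith [mul_pos h3 (by linarith : (0 : ℝ) < 1 - ρ), mul_nonneg h4 h3.le,
      mul_nonneg (mul_nonneg h4 h3.le) (by linarith : (0 : ℝ) ≤ 1 - ρ)]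
  linarith

/-- the constant `B` -/
noncomputable def Bc (x ρ : ℝ) : ℝ := (x - 1) / x * (ρ / (1 - ρ) ^ 2)

lemma Bc_nonneg (hx : 1 < x) (h0 : 0 < ρ) (h1 : ρ < 1) : 0 ≤ Bc x ρ := by
  unfold Bc
  have : 0 < x - 1 := by linarith
  have : 0 < 1 - ρ := by linarith
  positivity

lemma trm_lt {κ k e : ℕ} (T : ℕ) (he : e < k) (hx : 1 < x) (h0 : 0 < ρ) (h1 : ρ < 1) :
    trm κ k T x ρ e ≤ x ^ ((k + κ - 1 - e) / κ) * (1 + Bc x ρ) := by
  have hx0 : 0 < x := by linarith
  have hr : 0 < 1 - ρ := by linarith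
  unfold trm
  set S := (k + κ - 1 - e) / κ with hS
  have hp : ∀ n, psi κ k e n = S + n := fun n => by unfold psi; rw [if_pos he]
  have h2 : ∀ n ∈ range T, (x ^ psi κ k e (n + 1) - x ^ psi κ k e n) *
      ((ρ / x) ^ (n + 1) / (1 - ρ)) = x ^ S * ((x - 1) / x / (1 - ρ)) * ρ ^ (n + 1) := by
    intro n _
    rw [hp, hp, pow_add, pow_add, div_pow]
    field_simp
    ring
  rw [Finset.sum_congr rfl h2, ← Finset.mul_sum, hp, add_zero]
  have h3 := geom_le h0 h1 T
  have h4 : 0 ≤ x ^ S * ((x - 1) / x / (1 - ρ)) := by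
    have : 0 < x - 1 := by linarith
    positivity
  calc x ^ S + x ^ S * ((x - 1) / x / (1 - ρ)) * ∑ i ∈ range T, ρ ^ (i + 1)
      ≤ x ^ S + x ^ S * ((x - 1) / x / (1 - ρ)) * (ρ / (1 - ρ)) := by
        have := mul_le_mul_of_nonneg_left h3 h4
        linarith
    _ = x ^ S * (1 + Bc x ρ) := by
        unfold Bc
        field_simp

lemma trm_ge {κ k e : ℕ} (T : ℕ) (he : k ≤ e) (hx : 1 < x) (h0 : 0 < ρ) (h1 : ρ < 1) :
    trm κ k T x ρ e ≤ 1 + ∑ n ∈ range T,
      (if κ - 1 - e ≤ n + 1 then ρ ^ (n + 1) / (1 - ρ) else 0) := by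
  have hx0 : 0 < x := by linarith
  have hr : 0 < 1 - ρ := by linarith
  unfold trm
  have hp : ∀ n, psi κ k e n = if κ - 1 - e ≤ n then n else 0 :=
    fun n => by unfold psi; rw [if_neg (not_lt.2 he)]
  have h2 : psi κ k e 0 = 0 := by rw [hp]; split_ifs <;> rfl
  rw [h2, pow_zero]
  refine add_le_add le_rfl (Finset.sum_le_sum fun n _ => ?_)
  rw [hp, hp]
  by_cases h : κ - 1 - e ≤ n + 1
  · rw [if_pos h, if_pos h]
    have h3 : 0 ≤ x ^ (if κ - 1 - e ≤ n then n else 0) := by positivity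
    have h4 : (0 : ℝ) ≤ (ρ / x) ^ (n + 1) / (1 - ρ) := by positivity
    calc (x ^ (n + 1) - x ^ (if κ - 1 - e ≤ n then n else 0)) * ((ρ / x) ^ (n + 1) / (1 - ρ))
        ≤ x ^ (n + 1) * ((ρ / x) ^ (n + 1) / (1 - ρ)) :=
          mul_le_mul_of_nonneg_right (by linarith) h4
      _ = ρ ^ (n + 1) / (1 - ρ) := by
          rw [div_pow]
          field_simp
  · rw [if_neg h, if_neg h, if_neg (by omega)]
    simp

lemma sum_ge {κ : ℕ} (T : ℕ) (h0 : 0 < ρ) (h1 : ρ < 1) :
    ∑ e ∈ range κ, ∑ n ∈ range T,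
      (if κ - 1 - e ≤ n + 1 then ρ ^ (n + 1) / (1 - ρ) else 0) ≤
        (1 / (1 - ρ) ^ 2 - 1) / (1 - ρ) := by
  have hr : 0 < 1 - ρ := by linarith
  rw [Finset.sum_comm]
  have h2 : ∀ n ∈ range T, ∑ e ∈ range κ,
      (if κ - 1 - e ≤ n + 1 then ρ ^ (n + 1) / (1 - ρ) else 0) ≤
        ((n : ℝ) + 2) * ρ ^ (n + 1) / (1 - ρ) := by
    intro n _
    rw [← Finset.sum_filter, Finset.sum_const, nsmul_eq_mul, mul_div_assoc]
    have h3 : ((range κ).filter fun e => κ - 1 - e ≤ n + 1).card ≤ n + 2 := by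
      calc ((range κ).filter fun e => κ - 1 - e ≤ n + 1).card
          ≤ (Ico (κ - (n + 2)) κ).card := by
            refine Finset.card_le_card fun e he => ?_
            rw [Finset.mem_filter, Finset.mem_range] at he
            rw [Finset.mem_Ico]
            omega
        _ ≤ n + 2 := by rw [Nat.card_Ico]; omega
    have h4 : (((range κ).filter fun e => κ - 1 - e ≤ n + 1).card : ℝ) ≤ (n : ℝ) + 2 := by
      exact_mod_cast h3
    exact mul_le_mul_of_nonneg_right h4 (by positivity)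
  refine (Finset.sum_le_sum h2).trans ?_
  rw [← Finset.sum_div]
  exact div_le_div_of_nonneg_right (geom2_le h0 h1 T) hr.le

lemma Psi_eq (hx : 1 < x) : Psi x ρ = x * (1 + Bc x ρ) - 1 + (1 / (1 - ρ) ^ 2 - 1) / (1 - ρ) := by
  unfold Psi Bc
  have : x ≠ 0 := by linarith
  field_simp
  ring

lemma C_nonneg (h0 : 0 < ρ) (h1 : ρ < 1) : 0 ≤ (1 / (1 - ρ) ^ 2 - 1) / (1 - ρ) := by
  have hr : 0 < 1 - ρ := by linarith
  refine div_nonneg ?_ hr.le
  rw [sub_nonneg, one_le_div (by positivity)]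
  nlinarith

theorem num {κ k : ℕ} (T : ℕ) (hκ : 1 ≤ κ) (hk : 1 ≤ k) (hx : 1 < x) (h0 : 0 < ρ) (h1 : ρ < 1) :
    ∑ e ∈ range κ, trm κ k T x ρ e ≤ κ * exp (k * Psi x ρ / κ) := by
  have hx0 : 0 < x := by linarith
  have hr : 0 < 1 - ρ := by linarith
  have hκ0 : (0 : ℝ) < κ := by exact_mod_cast hκ
  have hB := Bc_nonneg hx h0 h1
  have hC := C_nonneg h0 h1
  have hPsi := Psi_eq (ρ := ρ) hx
  have hxB : 0 ≤ x * Bc x ρ := by positivity
  rcases Nat.lt_or_ge k κ with hlt | hge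
  · -- few moves
    have h2 : ∀ e ∈ range κ, trm κ k T x ρ e ≤ (if e < k then x * (1 + Bc x ρ) else 1) +
        ∑ n ∈ range T, (if κ - 1 - e ≤ n + 1 then ρ ^ (n + 1) / (1 - ρ) else 0) := by
      intro e he
      rw [Finset.mem_range] at he
      split_ifs with h
      · have h3 := trm_lt (κ := κ) T h hx h0 h1
        have h4 : (k + κ - 1 - e) / κ = 1 := by
          apply Nat.div_eq_of_lt_le
          · omega
          · omega
        rw [h4, pow_one] at h3
        have h5 : (0 : ℝ) ≤ ∑ n ∈ range T,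
            (if κ - 1 - e ≤ n + 1 then ρ ^ (n + 1) / (1 - ρ) else 0) := by
          refine Finset.sum_nonneg fun n _ => ?_
          split_ifs
          · positivity
          · exact le_rfl
        linarith
      · exact trm_ge T (not_lt.1 h) hx h0 h1
    refine (Finset.sum_le_sum h2).trans ?_
    rw [Finset.sum_add_distrib]
    have h3 := sum_ge (κ := κ) T h0 h1
    have h4 : ∑ e ∈ range κ, (if e < k then x * (1 + Bc x ρ) else 1) =
        k * (x * (1 + Bc x ρ)) + (κ - k) := by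
      rw [← Finset.sum_range_add_sum_Ico _ hlt.le]
      rw [Finset.sum_congr rfl (g := fun _ => x * (1 + Bc x ρ))
        (fun e he => if_pos (Finset.mem_range.1 he))]
      rw [Finset.sum_congr (s₁ := Ico k κ) rfl (g := fun _ => (1 : ℝ))
        (fun e he => if_neg (not_lt.2 (Finset.mem_Ico.1 he).1))]
      simp only [Finset.sum_const, Finset.card_range, nsmul_eq_mul, Nat.card_Ico, mul_one]
      rw [Nat.cast_sub hlt.le]
    rw [h4]
    have hk1 : (1 : ℝ) ≤ k := by exact_mod_cast hk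
    have h5 : (k : ℝ) * (x * (1 + Bc x ρ)) + (κ - k) + (1 / (1 - ρ) ^ 2 - 1) / (1 - ρ) ≤
        κ * (1 + k * Psi x ρ / κ) := by
      have e1 : (κ : ℝ) * (1 + k * Psi x ρ / κ) = κ + k * Psi x ρ := by field_simp
      rw [e1, hPsi]
      nlinarith
    have h6 : 1 + (k : ℝ) * Psi x ρ / κ ≤ exp (k * Psi x ρ / κ) := by
      have := add_one_le_exp ((k : ℝ) * Psi x ρ / κ)
      linarith
    have h7 := mul_le_mul_of_nonneg_left h6 hκ0.le
    linarith
  · -- many moves
    set q := k / κ with hq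
    set r := k % κ with hr'
    have hqr : k = q * κ + r := by
      have := Nat.div_add_mod k κ
      rw [hq, hr', mul_comm]
      exact this.symm
    have hrκ : r < κ := Nat.mod_lt _ hκ
    have hq1 : 1 ≤ q := (Nat.one_le_div_iff hκ).2 hge
    have h2 : ∀ e ∈ range κ, trm κ k T x ρ e ≤
        (1 + Bc x ρ) * x ^ q * (if e < r then x else 1) := by
      intro e he
      rw [Finset.mem_range] at he
      have h3 := trm_lt (κ := κ) T (lt_of_lt_of_le he hge) hx h0 h1
      have h4 : (k + κ - 1 - e) / κ = if e < r then q + 1 else q := by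
        split_ifs with h
        · apply Nat.div_eq_of_lt_le
          · rw [add_mul]; omega
          · rw [add_mul, add_mul]; omega
        · apply Nat.div_eq_of_lt_le
          · omega
          · rw [add_mul]; omega
      rw [h4] at h3
      refine h3.trans (le_of_eq ?_)
      split_ifs
      · rw [pow_succ]; ring
      · ring
    refine (Finset.sum_le_sum h2).trans ?_
    rw [← Finset.mul_sum]
    have h4 : ∑ e ∈ range κ, (if e < r then x else 1) = κ * (1 + r / κ * (x - 1)) := by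
      rw [← Finset.sum_range_add_sum_Ico _ hrκ.le]
      rw [Finset.sum_congr rfl (g := fun _ => x)
        (fun e he => if_pos (Finset.mem_range.1 he))]
      rw [Finset.sum_congr (s₁ := Ico r κ) rfl (g := fun _ => (1 : ℝ))
        (fun e he => if_neg (not_lt.2 (Finset.mem_Ico.1 he).1))]
      simp only [Finset.sum_const, Finset.card_range, nsmul_eq_mul, Nat.card_Ico, mul_one]
      rw [Nat.cast_sub hrκ.le]
      field_simp
      ring
    rw [h4]
    have h5 : (1 + Bc x ρ) * x ^ q ≤ exp (q * Psi x ρ) := by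
      have e1 : (1 + Bc x ρ) ≤ (1 + Bc x ρ) ^ q := by
        calc (1 + Bc x ρ) = (1 + Bc x ρ) ^ 1 := (pow_one _).symm
          _ ≤ (1 + Bc x ρ) ^ q := pow_le_pow_right₀ (by linarith) hq1
      have e2 : x * (1 + Bc x ρ) ≤ exp (Psi x ρ) := by
        have := add_one_le_exp (Psi x ρ)
        linarith
      calc (1 + Bc x ρ) * x ^ q ≤ (1 + Bc x ρ) ^ q * x ^ q :=
            mul_le_mul_of_nonneg_right e1 (by positivity)
        _ = (x * (1 + Bc x ρ)) ^ q := by rw [mul_pow, mul_comm]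
        _ ≤ (exp (Psi x ρ)) ^ q := pow_le_pow_left₀ (by positivity) e2 q
        _ = exp (q * Psi x ρ) := (exp_nat_mul _ _).symm
    have h6 : 1 + (r : ℝ) / κ * (x - 1) ≤ exp (r / κ * Psi x ρ) := by
      have e1 := add_one_le_exp ((r : ℝ) / κ * (x - 1))
      have e2 : (r : ℝ) / κ * (x - 1) ≤ r / κ * Psi x ρ := by
        apply mul_le_mul_of_nonneg_left _ (by positivity)
        rw [hPsi]
        linarith
      have e3 := exp_le_exp.2 e2
      linarith
    have h7 : exp (k * Psi x ρ / κ) = exp (q * Psi x ρ) * exp (r / κ * Psi x ρ) := by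
      rw [← exp_add]
      congr 1
      rw [hqr]
      push_cast
      field_simp
    rw [h7]
    have h8 : (0 : ℝ) ≤ 1 + (r : ℝ) / κ * (x - 1) := by
      have : 0 < x - 1 := by linarith
      positivity
    calc (1 + Bc x ρ) * x ^ q * (κ * (1 + r / κ * (x - 1)))
        = κ * (((1 + Bc x ρ) * x ^ q) * (1 + r / κ * (x - 1))) := by ring
      _ ≤ κ * (exp (q * Psi x ρ) * exp (r / κ * Psi x ρ)) := by
          apply mul_le_mul_of_nonneg_left _ hκ0.le
          exact mul_le_mul h5 h6 h8 (exp_pos _).le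

end Pool.Agent.Helper39.CC
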