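import Mathlib

/-!
# Two neighbours in a cyclic cellular automaton

`y` and `z` are the colours of two neighbours; both only stay or advance by one.  A move of `y`
at a time when `z = y + 1` is helped by `z`.  The number of these moves is controlled by the number
of the moves of `z` which are not helped by `y`.
-/

namespace Pool.Agent.Helper39.CC

/-- Floor division goes up by one exactly at the multiples of the divisor. -/
lemma succ_ediv (m κ : ℤ) (hκ : 0 < κ) :
    (m + 1) / κ = m / κ + if κ ∣ m + 1 then 1 else 0 := by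
  split_ifs with h
  · obtain ⟨l, hl⟩ := h
    have h1 : (m + 1) / κ = l := by rw [hl]; exact Int.mul_ediv_cancel_left _ hκ.ne'
    have h2 : m / κ = l - 1 := by
      have := (Int.ediv_emod_unique (a := m) (r := κ - 1) (q := l - 1) hκ).2
        ⟨by linear_combination -hl, by omega, by omega⟩
      exact this.1
    omega
  · have h0 := Int.emod_add_mul_ediv m κ
    have h1 := Int.emod_nonneg m hκ.ne'
    have h2 := Int.emod_lt_of_pos m hκ
    have h3 : m % κ + 1 < κ := by
      by_contra h4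
      apply h
      refine ⟨m / κ + 1, ?_⟩
      have : m % κ = κ - 1 := by omega
      rw [this] at h0
      linear_combination -h0
    have := (Int.ediv_emod_unique (a := m + 1) (r := m % κ + 1) (q := m / κ) hκ).2
      ⟨by linear_combination h0, by omega, by omega⟩
    omega

variable {κ : ℕ} [NeZero κ]

lemma val_add_one (hκ : 2 ≤ κ) (a : Fin κ) : ((a + 1 : Fin κ).val : ℤ) ≡ a.val + 1 [ZMOD κ] := by
  have h1 : (a + 1 : Fin κ).val = (a.val + 1) % κ := by
    rw [Fin.val_add, Fin.val_one', Nat.add_mod_mod]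
  rw [h1]
  push_cast
  exact Int.mod_modEq _ _

lemma eq_add_one_iff (hκ : 2 ≤ κ) (a b : Fin κ) :
    a = b + 1 ↔ ((a.val : ℤ) - b.val) ≡ 1 [ZMOD κ] := by
  constructor
  · rintro rfl
    have := (val_add_one hκ b).sub_right (b.val : ℤ)
    simpa using this
  · intro h
    have h1 : (a.val : ℤ) ≡ ((b + 1 : Fin κ).val : ℤ) [ZMOD κ] := by
      have h2 := h.add_right (b.val : ℤ)
      have h3 := (val_add_one hκ b).symm
      have h4 : (a.val : ℤ) ≡ 1 + b.val [ZMOD κ] := by simpa using h2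
      rw [add_comm] at h4
      exact h4.trans h3
    have h2 : a.val ≡ (b + 1 : Fin κ).val [MOD κ] := (Int.natCast_modEq_iff).1 h1
    exact Fin.ext (Nat.ModEq.eq_of_lt_of_lt h2 a.2 (b + 1 : Fin κ).2)

lemma add_one_ne (hκ : 2 ≤ κ) (a : Fin κ) : a + 1 ≠ a := by
  intro h
  have h1 := (eq_add_one_iff hκ a a).1 h.symm
  rw [sub_self] at h1
  have h2 := (Int.modEq_iff_dvd.1 h1)
  have h3 : (κ : ℤ) ∣ 1 := by simpa using h2
  have := Int.le_of_dvd one_pos h3
  omega

variable (y z : ℕ → Fin κ)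

/-- the number of moves of `y` before `t` -/
def cM (y : ℕ → Fin κ) (t : ℕ) : ℕ := Nat.count (fun s => y (s + 1) ≠ y s) t

/-- the number of moves of `y` before `t` which are not helped by `g` -/
def cU (y g : ℕ → Fin κ) (t : ℕ) : ℕ := Nat.count (fun s => y (s + 1) ≠ y s ∧ g s ≠ y s + 1) t

/-- the number of moves of `y` before `t` which are helped by `z` -/
def cH (y z : ℕ → Fin κ) (t : ℕ) : ℕ := Nat.count (fun s => y (s + 1) ≠ y s ∧ z s = y s + 1) t

/-- staying or advancing by one -/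
def Legal (y : ℕ → Fin κ) : Prop := ∀ t, y (t + 1) = y t ∨ y (t + 1) = y t + 1

lemma cM_succ (y : ℕ → Fin κ) (t : ℕ) :
    cM y (t + 1) = cM y t + if y (t + 1) ≠ y t then 1 else 0 := Nat.count_succ _ _

lemma cU_succ (y g : ℕ → Fin κ) (t : ℕ) :
    cU y g (t + 1) = cU y g t + if y (t + 1) ≠ y t ∧ g t ≠ y t + 1 then 1 else 0 :=
  Nat.count_succ _ _

lemma cH_succ (y z : ℕ → Fin κ) (t : ℕ) :
    cH y z (t + 1) = cH y z t + if y (t + 1) ≠ y t ∧ z t = y t + 1 then 1 else 0 :=
  Nat.count_succ _ _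

lemma cU_mono (y g : ℕ → Fin κ) {s t : ℕ} (h : s ≤ t) : cU y g s ≤ cU y g t :=
  Nat.count_monotone _ h

lemma cM_mono (y : ℕ → Fin κ) {s t : ℕ} (h : s ≤ t) : cM y s ≤ cM y t :=
  Nat.count_monotone _ h

lemma cU_le_cM (y g : ℕ → Fin κ) (t : ℕ) : cU y g t ≤ cM y t := by
  induction t with
  | zero => simp [cU, cM]
  | succ t ih =>
    rw [cU_succ, cM_succ]
    by_cases h : y (t + 1) ≠ y t
    · rw [if_pos h]
      split_ifs <;> omega
    · rw [if_neg h, if_neg (fun h' => h h'.1)]
      omega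

lemma cM_le (y : ℕ → Fin κ) (t : ℕ) : cM y t ≤ t := by
  induction t with
  | zero => simp [cM]
  | succ t ih =>
    rw [cM_succ]
    split_ifs <;> omega

/-- the position of `z` relative to `y` -/
def rel (δ : ℕ) (t : ℕ) : ℤ := (δ : ℤ) + cM z t - cM y t

variable {y z}

lemma rel_succ (δ t : ℕ) : rel y z δ (t + 1) = rel y z δ t +
    (if z (t + 1) ≠ z t then 1 else 0) - (if y (t + 1) ≠ y t then 1 else 0) := by
  unfold rel
  rw [cM_succ, cM_succ]
  push_cast
  split_ifs <;> ring

lemma rel_modEq (hκ : 2 ≤ κ) (hy : Legal y) (hz : Legal z) {δ : ℕ}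
    (h0 : ((z 0).val : ℤ) - (y 0).val ≡ δ [ZMOD κ]) (t : ℕ) :
    ((z t).val : ℤ) - (y t).val ≡ rel y z δ t [ZMOD κ] := by
  induction t with
  | zero => simpa [rel, cM] using h0
  | succ t ih =>
    have key : ∀ w : ℕ → Fin κ, Legal w →
        ((w (t + 1)).val : ℤ) ≡ (w t).val + (if w (t + 1) ≠ w t then 1 else 0) [ZMOD κ] := by
      intro w hw
      rcases hw t with h | h
      · rw [if_neg (not_not.2 h), h, add_zero]
      · have h1 : w (t + 1) ≠ w t := by rw [h]; exact add_one_ne hκ _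
        rw [if_pos h1, h]
        exact val_add_one hκ _
    have h1 := (key z hz).sub (key y hy)
    refine h1.trans ?_
    rw [rel_succ]
    have h2 := (ih.add_right (if z (t + 1) ≠ z t then 1 else 0)).sub_right
      (if y (t + 1) ≠ y t then 1 else 0)
    convert h2 using 1
    ring

/-- First invariant. -/
lemma inv_one (hκ : 3 ≤ κ) (hy : Legal y) (hz : Legal z) {δ : ℕ} (hδ : 1 ≤ δ) (hδ2 : δ ≤ κ)
    (h0 : ((z 0).val : ℤ) - (y 0).val ≡ δ [ZMOD κ]) (t : ℕ) :
    (cH y z t : ℤ) + ((rel y z δ t - 1) / κ + 1) ≤ 1 + cU z y t := by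
  have hκ0 : (0 : ℤ) < κ := by omega
  induction t with
  | zero =>
    have h1 : rel y z δ 0 = δ := by simp [rel, cM]
    have h2 : ((δ : ℤ) - 1) / κ = 0 := Int.ediv_eq_zero_of_lt (by omega) (by omega)
    rw [h1, h2]
    simp [cH, cU]
  | succ t ih =>
    have hR := rel_modEq (by omega) hy hz h0 t
    have hzy : z t = y t + 1 ↔ rel y z δ t ≡ 1 [ZMOD κ] := by
      rw [eq_add_one_iff (by omega)]
      exact ⟨fun h => hR.symm.trans h, fun h => hR.trans h⟩
    have hyz : y t = z t + 1 ↔ rel y z δ t ≡ -1 [ZMOD κ] := by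
      rw [eq_add_one_iff (by omega)]
      have e : ((y t).val : ℤ) - (z t).val = -(((z t).val : ℤ) - (y t).val) := by ring
      rw [e]
      constructor
      · intro h
        have := h.neg
        rw [neg_neg] at this
        exact hR.symm.trans this
      · intro h
        have := (hR.trans h).neg
        rwa [neg_neg] at this
    rw [cH_succ, cU_succ, rel_succ]
    generalize hD : rel y z δ t = D at *
    -- divisibility facts
    have d1 : D ≡ 1 [ZMOD κ] ↔ (κ : ℤ) ∣ D - 1 := by
      rw [Int.modEq_comm, Int.modEq_iff_dvd]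
    have d2 : D ≡ -1 [ZMOD κ] ↔ (κ : ℤ) ∣ D + 1 := by
      rw [Int.modEq_comm, Int.modEq_iff_dvd, sub_neg_eq_add]
    have e1 := succ_ediv (D - 1 - 1) κ hκ0
    have e2 := succ_ediv (D - 1) κ hκ0
    rw [show D - 1 - 1 + 1 = D - 1 by ring] at e1
    rw [show D - 1 + 1 = D by ring] at e2
    have n1 : (κ : ℤ) ∣ D - 1 → ¬ (κ : ℤ) ∣ D + 1 := by
      intro a b
      have := Int.le_of_dvd (by norm_num) (dvd_sub b a)
      have e : D + 1 - (D - 1) = 2 := by ring
      rw [e] at this
      omega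
    have n2 : (κ : ℤ) ∣ D → ¬ (κ : ℤ) ∣ D + 1 := by
      intro a b
      have := Int.le_of_dvd (by norm_num) (dvd_sub b a)
      have e : D + 1 - D = 1 := by ring
      rw [e] at this
      omega
    have q1 : z t = y t + 1 ↔ (κ : ℤ) ∣ D - 1 := hzy.trans d1
    have q2 : y t ≠ z t + 1 ↔ ¬ (κ : ℤ) ∣ D + 1 := not_congr (hyz.trans d2)
    simp only [q1, q2]
    by_cases my : y (t + 1) ≠ y t <;> by_cases mz : z (t + 1) ≠ z t
    · rw [if_pos my, if_pos mz]
      by_cases a : (κ : ℤ) ∣ D - 1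
      · rw [if_pos ⟨my, a⟩, if_pos ⟨mz, n1 a⟩]
        rw [show D + 1 - 1 - 1 = D - 1 by ring]
        push_cast
        linarith
      · rw [if_neg (fun h => a h.2)]
        rw [show D + 1 - 1 - 1 = D - 1 by ring]
        push_cast
        split_ifs <;> linarith
    · rw [if_pos my, if_neg mz]
      rw [show D + 0 - 1 - 1 = D - 1 - 1 by ring]
      rw [if_neg (fun h : z (t + 1) ≠ z t ∧ ¬ (κ : ℤ) ∣ D + 1 => mz h.1)]
      by_cases a : (κ : ℤ) ∣ D - 1
      · rw [if_pos ⟨my, a⟩]
        rw [if_pos a] at e1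
        push_cast
        linarith
      · rw [if_neg (fun h => a h.2)]
        rw [if_neg a] at e1
        push_cast
        linarith
    · rw [if_neg my, if_pos mz]
      rw [if_neg (fun h : y (t + 1) ≠ y t ∧ (κ : ℤ) ∣ D - 1 => my h.1)]
      rw [show D + 1 - 0 - 1 = D by ring]
      by_cases a : (κ : ℤ) ∣ D
      · rw [if_pos ⟨mz, n2 a⟩]
        rw [if_pos a] at e2
        push_cast
        linarith
      · rw [if_neg a] at e2
        push_cast
        split_ifs <;> linarith
    · rw [if_neg my, if_neg mz]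
      rw [if_neg (fun h : y (t + 1) ≠ y t ∧ (κ : ℤ) ∣ D - 1 => my h.1)]
      rw [if_neg (fun h : z (t + 1) ≠ z t ∧ ¬ (κ : ℤ) ∣ D + 1 => mz h.1)]
      rw [show D + 0 - 0 - 1 = D - 1 by ring]
      push_cast
      linarith

/-- Second invariant. -/
lemma inv_two (hκ : 3 ≤ κ) (hy : Legal y) (hz : Legal z) {δ : ℕ}
    (h0 : ((z 0).val : ℤ) - (y 0).val ≡ δ [ZMOD κ]) (t : ℕ) :
    rel y z δ t - rel y z δ t / κ ≤ (δ - (δ : ℤ) / κ) + cU z y t := by
  have hκ0 : (0 : ℤ) < κ := by omega
  induction t with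
  | zero =>
    have h1 : rel y z δ 0 = δ := by simp [rel, cM]
    rw [h1]
    simp [cU]
  | succ t ih =>
    have hR := rel_modEq (by omega) hy hz h0 t
    have hyz : y t = z t + 1 ↔ rel y z δ t ≡ -1 [ZMOD κ] := by
      rw [eq_add_one_iff (by omega)]
      have e : ((y t).val : ℤ) - (z t).val = -(((z t).val : ℤ) - (y t).val) := by ring
      rw [e]
      constructor
      · intro h
        have := h.neg
        rw [neg_neg] at this
        exact hR.symm.trans this
      · intro h
        have := (hR.trans h).neg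
        rwa [neg_neg] at this
    rw [cU_succ, rel_succ]
    generalize hD : rel y z δ t = D at *
    have d2 : D ≡ -1 [ZMOD κ] ↔ (κ : ℤ) ∣ D + 1 := by
      rw [Int.modEq_comm, Int.modEq_iff_dvd, sub_neg_eq_add]
    have e1 := succ_ediv (D - 1) κ hκ0
    have e2 := succ_ediv D κ hκ0
    rw [show D - 1 + 1 = D by ring] at e1
    have q2 : y t ≠ z t + 1 ↔ ¬ (κ : ℤ) ∣ D + 1 := not_congr (hyz.trans d2)
    simp only [q2]
    by_cases my : y (t + 1) ≠ y t <;> by_cases mz : z (t + 1) ≠ z t
    · rw [if_pos my, if_pos mz]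
      rw [show D + 1 - 1 = D by ring]
      push_cast
      split_ifs <;> linarith
    · rw [if_pos my, if_neg mz]
      rw [if_neg (fun h : z (t + 1) ≠ z t ∧ ¬ (κ : ℤ) ∣ D + 1 => mz h.1)]
      rw [show D + 0 - 1 = D - 1 by ring]
      push_cast
      split_ifs at e1 <;> linarith
    · rw [if_neg my, if_pos mz]
      rw [show D + 1 - 0 = D + 1 by ring]
      by_cases a : (κ : ℤ) ∣ D + 1
      · rw [if_neg (fun h => h.2 a)]
        rw [if_pos a] at e2
        push_cast
        linarith
      · rw [if_pos ⟨mz, a⟩]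
        rw [if_neg a] at e2
        push_cast
        linarith
    · rw [if_neg my, if_neg mz]
      rw [if_neg (fun h : z (t + 1) ≠ z t ∧ ¬ (κ : ℤ) ∣ D + 1 => mz h.1)]
      rw [show D + 0 - 0 = D by ring]
      push_cast
      linarith

/-- the bound for the number of helped moves -/
def psi (κ k e n : ℕ) : ℕ :=
  if e < k then (k + κ - 1 - e) / κ + n else if κ - 1 - e ≤ n then n else 0

lemma psi_mono (κ k e : ℕ) {n m : ℕ} (h : n ≤ m) : psi κ k e n ≤ psi κ k e m := by
  unfold psi
  split_ifs <;> omega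

/-- A helped move gives a time at which the relative position is `1`. -/
lemma exists_help {t : ℕ} (h : 0 < cH y z t) :
    ∃ s < t, y (s + 1) ≠ y s ∧ z s = y s + 1 := by
  induction t with
  | zero => simp [cH] at h
  | succ t ih =>
    by_cases h1 : y (t + 1) ≠ y t ∧ z t = y t + 1
    · exact ⟨t, Nat.lt_succ_self t, h1⟩
    · rw [cH_succ, if_neg h1] at h
      obtain ⟨s, h2, h3⟩ := ih h
      exact ⟨s, h2.trans (Nat.lt_succ_self t), h3⟩

/-- The number of the moves of `y` helped by the neighbour `z`. -/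
theorem helps_le (hκ : 3 ≤ κ) (hy : Legal y) (hz : Legal z) {e : ℕ} (he : e < κ)
    (h0 : ((z 0).val : ℤ) - (y 0).val ≡ ((e + 1 : ℕ) : ℤ) [ZMOD κ]) (t : ℕ) :
    cH y z t ≤ psi κ (cM y t) e (cU z y t) := by
  have hκ0 : (0 : ℤ) < κ := by omega
  have h1 := inv_one hκ hy hz (δ := e + 1) (by omega) (by omega) h0 t
  have h2 : ((e : ℤ) - cM y t) / κ ≤ (rel y z (e + 1) t - 1) / κ := by
    apply Int.ediv_le_ediv hκ0
    unfold rel
    push_cast
    have : (0 : ℤ) ≤ cM z t := by positivity
    linarith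
  unfold psi
  split_ifs with a b
  · -- the general bound
    have h3 : (((cM y t + κ - 1 - e) / κ : ℕ) : ℤ) = -(((e : ℤ) - cM y t) / κ) := by
      rw [Int.natCast_ediv]
      have h4 : ((cM y t + κ - 1 - e : ℕ) : ℤ) = (cM y t : ℤ) + κ - 1 - e := by omega
      rw [h4]
      have h5 := Int.emod_add_mul_ediv ((e : ℤ) - cM y t) κ
      have h6 := Int.emod_nonneg ((e : ℤ) - cM y t) hκ0.ne'
      have h7 := Int.emod_lt_of_pos ((e : ℤ) - cM y t) hκ0
      exact ((Int.ediv_emod_unique (a := (cM y t : ℤ) + κ - 1 - e)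
        (r := κ - 1 - ((e : ℤ) - cM y t) % κ) (q := -(((e : ℤ) - cM y t) / κ)) hκ0).2
        ⟨by linear_combination -h5, by omega, by omega⟩).1
    omega
  · have h3 : 0 ≤ ((e : ℤ) - cM y t) / κ := Int.ediv_nonneg (by omega) hκ0.le
    omega
  · by_contra hpos
    apply b
    obtain ⟨s, hs, hm, hzs⟩ := exists_help (Nat.pos_of_ne_zero (by omega) : 0 < cH y z t)
    have hR := rel_modEq (by omega) hy hz h0 s
    have hD : rel y z (e + 1) s ≡ 1 [ZMOD κ] :=
      hR.symm.trans ((eq_add_one_iff (by omega) _ _).1 hzs)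
    have h4 : cM y (s + 1) ≤ cM y t := cM_mono y hs
    rw [cM_succ, if_pos hm] at h4
    have h5 : 2 ≤ rel y z (e + 1) s := by
      unfold rel
      have : (0 : ℤ) ≤ cM z s := by positivity
      push_cast
      omega
    obtain ⟨l, hl⟩ := Int.modEq_iff_dvd.1 hD.symm
    have hl1 : 1 ≤ l := by
      by_contra hlt
      have h6 : (κ : ℤ) * l ≤ 0 := mul_nonpos_of_nonneg_of_nonpos hκ0.le (by omega)
      omega
    have h7 : rel y z (e + 1) s / κ = l := by
      have := (Int.ediv_emod_unique (a := rel y z (e + 1) s) (r := 1) (q := l) hκ0).2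
        ⟨by linear_combination -hl, by omega, by omega⟩
      exact this.1
    have h8 := inv_two hκ hy hz h0 s
    rw [h7] at h8
    have h9 : (0 : ℤ) ≤ ((e + 1 : ℕ) : ℤ) / κ := Int.ediv_nonneg (by positivity) hκ0.le
    have h10 : cU z y s ≤ cU z y t := cU_mono z y hs.le
    have h11 : (κ : ℤ) ≤ rel y z (e + 1) s - l := by
      have h12 : rel y z (e + 1) s = 1 + κ * l := by linear_combination hl
      rw [h12]
      nlinarith
    push_cast at *
    omega

end Pool.Agent.Helper39.CC
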