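import Pool.Agent.Helper39.CC.Step
import Pool.Agent.Helper39.CC.Num

/-!
# The recursion for the probabilities
-/

open MeasureTheory Set ProbabilityTheory
open Pool.Agent.Helper94.CCA Pool.Agent.Helper99.CA

namespace Pool.Agent.Helper39.CC

variable {d κ : ℕ} [NeZero κ]

lemma layer (W : ℕ → ℝ) {N T : ℕ} (h : N ≤ T) :
    W N = W 0 + ∑ n ∈ Finset.range T, (W (n + 1) - W n) * (if n + 1 ≤ N then 1 else 0) := by
  have h1 : ∑ n ∈ Finset.range T, (W (n + 1) - W n) * (if n + 1 ≤ N then 1 else 0) =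
      ∑ n ∈ Finset.range N, (W (n + 1) - W n) := by
    rw [← Finset.sum_range_add_sum_Ico _ h]
    have e1 : ∑ n ∈ Finset.range N, (W (n + 1) - W n) * (if n + 1 ≤ N then 1 else 0) =
        ∑ n ∈ Finset.range N, (W (n + 1) - W n) := by
      refine Finset.sum_congr rfl fun n hn => ?_
      rw [Finset.mem_range] at hn
      rw [if_pos (by omega), mul_one]
    have e2 : ∑ n ∈ Finset.Ico N T, (W (n + 1) - W n) * (if n + 1 ≤ N then 1 else 0) = 0 := by
      refine Finset.sum_eq_zero fun n hn => ?_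
      rw [Finset.mem_Ico] at hn
      rw [if_neg (by omega), mul_zero]
    rw [e1, e2, add_zero]
  rw [h1, Finset.sum_range_sub]
  ring

lemma Nmax_ldep (θ T : ℕ) (w : Vert d) : LDep (κ := κ) w (Nmax θ T w) := by
  classical
  exact (hist_ldep θ T w).comp
    (fun H => Nat.findGreatest (fun n => ∃ g, n ≤ cU (H g) g T) T)

lemma sum_ev (c : Fin κ) (f : ℕ → ℝ) :
    ∑ b : Fin κ, f (ev c b) = ∑ e ∈ Finset.range κ, f e := by
  rw [← Fin.sum_univ_eq_sum_range f κ]
  have h : Function.Bijective (fun b : Fin κ => b - c - 1) := by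
    have h1 : (fun b : Fin κ => b - c - 1) = fun b => b - (c + 1) := by
      funext b
      abel
    rw [h1]
    exact (Equiv.subRight (c + 1)).bijective
  exact h.sum_comp (fun b : Fin κ => f b.val)

lemma law_coord_eq {V : Type*} (v : V) (b : Fin κ) :
    (law V κ).real {ω : V → Fin κ | ω v = b} = 1 / κ := by
  have := law_coord (κ := κ) v {b}
  simpa using this

open Classical in
/-- the indicator function -/
noncomputable def ind (A : Set (Vert d → Fin κ)) (ω : Vert d → Fin κ) : ℝ :=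
  if ω ∈ A then 1 else 0

/-- The exponential moment of the contribution of one child. -/
theorem int_child {θ T k : ℕ} {w : Vert d} {c : Fin κ} {x ρ : ℝ} (hκ : 1 ≤ κ) (hk : 1 ≤ k)
    (hx : 1 < x) (h0 : 0 < ρ) (h1 : ρ < 1)
    (hN : ∀ (b : Fin κ) (n : ℕ), (law (Vert d) κ).real {ω | ω w = b ∧ n + 1 ≤ Nmax θ T w ω} ≤
      (ρ / x) ^ (n + 1) / (1 - ρ) / κ) :
    ∫ ω, x ^ psi κ k (ev c (ω w)) (Nmax θ T w ω) ∂law (Vert d) κ ≤
      Real.exp (k * Psi x ρ / κ) := by
  have hκ0 : (0 : ℝ) < κ := by exact_mod_cast hκ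
  -- pointwise decomposition
  have hpt : ∀ ω : Vert d → Fin κ, x ^ psi κ k (ev c (ω w)) (Nmax θ T w ω) =
      ∑ b : Fin κ, ((x ^ psi κ k (ev c b) 0) * ind {ω : Vert d → Fin κ | ω w = b} ω
        + ∑ n ∈ Finset.range T, (x ^ psi κ k (ev c b) (n + 1) - x ^ psi κ k (ev c b) n) *
          ind {ω : Vert d → Fin κ | ω w = b ∧ n + 1 ≤ Nmax θ T w ω} ω) := by
    intro ω
    rw [Finset.sum_eq_single (ω w)]
    · simp only [ind, mem_ofPred_eq, if_true, mul_one, true_and]
      exact layer (fun n => x ^ psi κ k (ev c (ω w)) n) (Nmax_le T w)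
    · intro b _ hb
      have hb' : ¬ ω w = b := fun h => hb h.symm
      simp [ind, hb']
    · intro h
      exact absurd (Finset.mem_univ _) h
  have hd0 : ∀ b : Fin κ, LDep w (fun ω : Vert d → Fin κ => ω ∈ {ω : Vert d → Fin κ | ω w = b}) :=
    fun b => (LDep.self w).comp fun a => a = b
  have hd1 : ∀ (b : Fin κ) (n : ℕ), LDep w (fun ω : Vert d → Fin κ =>
      ω ∈ {ω : Vert d → Fin κ | ω w = b ∧ n + 1 ≤ Nmax θ T w ω}) :=
    fun b n => (LDep.pair (LDep.self w) (Nmax_ldep θ T w)).comp fun p => p.1 = b ∧ n + 1 ≤ p.2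
  have hint : ∀ A : Set (Vert d → Fin κ), LDep w (fun ω => ω ∈ A) →
      Integrable (ind A) (law (Vert d) κ) := by
    classical
    intro A hA
    obtain ⟨K, -, hK⟩ := hA
    have h2 : Dep K (ind A) := by
      intro ω ω' hω
      have h3 := hK ω ω' hω
      simp only [ind, h3]
    exact h2.integrable
  have hval : ∀ A : Set (Vert d → Fin κ), LDep w (fun ω => ω ∈ A) →
      ∫ ω, ind A ω ∂law (Vert d) κ = (law (Vert d) κ).real A := by
    intro A hA
    obtain ⟨K, -, hK⟩ := hA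
    have h2 := integral_ind hK 1 0
    rw [zero_mul, add_zero, one_mul] at h2
    exact h2
  simp_rw [hpt]
  rw [integral_finsetSum _ (fun b _ => ?_)]
  swap
  · refine Integrable.add ((hint _ (hd0 b)).const_mul _) ?_
    refine integrable_finsetSum _ fun n _ => (hint _ (hd1 b n)).const_mul _
  have hterm : ∀ b : Fin κ, ∫ ω, ((x ^ psi κ k (ev c b) 0) *
        ind {ω : Vert d → Fin κ | ω w = b} ω
        + ∑ n ∈ Finset.range T, (x ^ psi κ k (ev c b) (n + 1) - x ^ psi κ k (ev c b) n) *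
          ind {ω : Vert d → Fin κ | ω w = b ∧ n + 1 ≤ Nmax θ T w ω} ω)
        ∂law (Vert d) κ ≤ (1 / κ) * trm κ k T x ρ (ev c b) := by
    intro b
    rw [integral_add ((hint _ (hd0 b)).const_mul _)
      (integrable_finsetSum _ fun n _ => (hint _ (hd1 b n)).const_mul _)]
    rw [integral_finsetSum _ (fun n _ => (hint _ (hd1 b n)).const_mul _)]
    simp_rw [integral_const_mul]
    rw [hval _ (hd0 b), law_coord_eq]
    unfold trm
    rw [mul_add, Finset.mul_sum]
    refine add_le_add (le_of_eq (by ring)) (Finset.sum_le_sum fun n _ => ?_)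
    rw [hval _ (hd1 b n)]
    have e1 : 0 ≤ x ^ psi κ k (ev c b) (n + 1) - x ^ psi κ k (ev c b) n :=
      sub_nonneg.2 (pow_le_pow_right₀ hx.le (psi_mono _ _ _ (Nat.le_succ n)))
    calc (x ^ psi κ k (ev c b) (n + 1) - x ^ psi κ k (ev c b) n) *
          (law (Vert d) κ).real {ω | ω w = b ∧ n + 1 ≤ Nmax θ T w ω}
        ≤ (x ^ psi κ k (ev c b) (n + 1) - x ^ psi κ k (ev c b) n) *
          ((ρ / x) ^ (n + 1) / (1 - ρ) / κ) := mul_le_mul_of_nonneg_left (hN b n) e1
      _ = 1 / κ * ((x ^ psi κ k (ev c b) (n + 1) - x ^ psi κ k (ev c b) n) *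
          ((ρ / x) ^ (n + 1) / (1 - ρ))) := by ring
  refine (Finset.sum_le_sum fun b _ => hterm b).trans ?_
  rw [← Finset.mul_sum, sum_ev c (fun e => trm κ k T x ρ e)]
  have h2 := num T hκ hk hx h0 h1
  calc (1 / κ : ℝ) * ∑ e ∈ Finset.range κ, trm κ k T x ρ e
      ≤ (1 / κ) * (κ * Real.exp (k * Psi x ρ / κ)) :=
        mul_le_mul_of_nonneg_left h2 (by positivity)
    _ = Real.exp (k * Psi x ρ / κ) := by field_simp

/-- the event of `k` moves until `T`, at least `m` of them without help of the parent -/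
def evt (θ T : ℕ) (u : Vert d) (c : Fin κ) (k m : ℕ) : Set (Vert d → Fin κ) :=
  {ω | ω u = c ∧ ∃ g, cM (hist θ ω T u g) T = k ∧ m ≤ cU (hist θ ω T u g) g T}

lemma evt_sub (θ T : ℕ) (u : Vert d) (c : Fin κ) (k m : ℕ) :
    (law (Vert d) κ).real (evt θ T u c k m) ≤ 1 / κ := by
  rw [← law_coord_eq u c]
  exact measureReal_mono (fun ω h => h.1)

lemma evt_zero (θ T : ℕ) (u : Vert d) (c : Fin κ) {m : ℕ} (hm : 1 ≤ m) :
    evt θ T u c 0 m = ∅ := by
  ext ω
  simp only [evt, mem_ofPred_eq, mem_empty_iff_false, iff_false, not_and, not_exists]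
  intro _ g h1 h2
  have := cU_le_cM (hist θ ω T u g) g T
  omega

/-- from the events of `k` moves to the maximal number of moves without help -/
lemma Nmax_prob {θ T : ℕ} {w : Vert d} {x ρ : ℝ} (hx : 1 < x) (h0 : 0 < ρ) (h1 : ρ < 1)
    (ih : ∀ (b : Fin κ) (k m : ℕ), (law (Vert d) κ).real (evt θ T w b k m) ≤ ρ ^ k / x ^ m / κ)
    (b : Fin κ) (n : ℕ) :
    (law (Vert d) κ).real {ω | ω w = b ∧ n + 1 ≤ Nmax θ T w ω} ≤
      (ρ / x) ^ (n + 1) / (1 - ρ) / κ := by
  have hx0 : 0 < x := by linarith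
  have hr : 0 < 1 - ρ := by linarith
  have hκ0 : (0 : ℝ) < κ := by
    have := NeZero.ne κ
    exact_mod_cast Nat.pos_of_ne_zero this
  have hsub : {ω : Vert d → Fin κ | ω w = b ∧ n + 1 ≤ Nmax θ T w ω} ⊆
      ⋃ j ∈ Finset.range T, evt θ T w b (n + 1 + j) (n + 1) := by
    rintro ω ⟨hb, hn⟩
    obtain ⟨g, hg⟩ := (le_Nmax_iff w).1 hn
    have h2 := cU_le_cM (hist θ ω T w g) g T
    have h3 := cM_le (hist θ ω T w g) T
    rw [mem_iUnion₂]
    refine ⟨cM (hist θ ω T w g) T - (n + 1), Finset.mem_range.2 (by omega), hb, g, by omega, hg⟩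
  have h2 : (law (Vert d) κ).real (⋃ j ∈ Finset.range T, evt θ T w b (n + 1 + j) (n + 1)) ≤
      ∑ j ∈ Finset.range T, ρ ^ (n + 1 + j) / x ^ (n + 1) / κ :=
    (measureReal_biUnion_finset_le _ _).trans (Finset.sum_le_sum fun j _ => ih b _ _)
  refine ((measureReal_mono hsub (measure_ne_top _ _)).trans h2).trans ?_
  have h3 : ∑ j ∈ Finset.range T, ρ ^ (n + 1 + j) / x ^ (n + 1) / κ =
      ρ ^ (n + 1) / x ^ (n + 1) / κ * ∑ j ∈ Finset.range T, ρ ^ j := by
    rw [Finset.mul_sum]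
    refine Finset.sum_congr rfl fun j _ => ?_
    rw [pow_add]
    ring
  have h4 : ∑ j ∈ Finset.range T, ρ ^ j ≤ 1 / (1 - ρ) := by
    have := geom_le h0 h1 T
    have h5 : ∑ n ∈ Finset.range T, ρ ^ (n + 1) = ρ * ∑ j ∈ Finset.range T, ρ ^ j := by
      rw [Finset.mul_sum]
      exact Finset.sum_congr rfl fun j _ => by ring
    rw [h5] at this
    rw [le_div_iff₀ hr] at this ⊢
    nlinarith
  rw [h3]
  calc ρ ^ (n + 1) / x ^ (n + 1) / κ * ∑ j ∈ Finset.range T, ρ ^ j
      ≤ ρ ^ (n + 1) / x ^ (n + 1) / κ * (1 / (1 - ρ)) :=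
        mul_le_mul_of_nonneg_left h4 (by positivity)
    _ = (ρ / x) ^ (n + 1) / (1 - ρ) / κ := by
        rw [div_pow]
        field_simp

/-- The recursion. -/
theorem evt_le {θ : ℕ} {x ρ : ℝ} (hκ : 3 ≤ κ) (hθ : 1 ≤ θ) (hx : 1 < x) (h0 : 0 < ρ) (h1 : ρ < 1)
    (hcrit : Real.exp (d * Psi x ρ / κ) ≤ ρ * x ^ (θ - 1)) (T : ℕ) :
    ∀ u : Vert d, u ≠ root → ∀ (c : Fin κ) (k m : ℕ),
      (law (Vert d) κ).real (evt θ T u c k m) ≤ ρ ^ k / x ^ m / κ := by
  have hx0 : 0 < x := by linarith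
  have hκ0 : (0 : ℝ) < κ := by exact_mod_cast (by omega : 0 < κ)
  have hk0 : ∀ (T : ℕ) (u : Vert d) (c : Fin κ) (m : ℕ),
      (law (Vert d) κ).real (evt θ T u c 0 m) ≤ ρ ^ 0 / x ^ m / κ := by
    intro T u c m
    rcases Nat.eq_zero_or_pos m with rfl | hm
    · simpa using evt_sub θ T u c 0 0
    · rw [evt_zero θ T u c hm]
      simp only [measureReal_empty, pow_zero]
      positivity
  induction T with
  | zero =>
    intro u _ c k m
    rcases Nat.eq_zero_or_pos k with rfl | hk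
    · exact hk0 0 u c m
    · have : evt θ 0 u c k m = (∅ : Set (Vert d → Fin κ)) := by
        ext ω
        simp only [evt, mem_ofPred_eq, mem_empty_iff_false, iff_false, not_and, not_exists]
        intro _ g h2
        simp only [cM, Nat.count_zero] at h2
        omega
      rw [this]
      simp only [measureReal_empty]
      positivity
  | succ T ih =>
    intro u hu c k m
    rcases Nat.eq_zero_or_pos k with rfl | hk
    · exact hk0 (T + 1) u c m
    set L := (θ - 1) * k + m with hL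
    set Y : Fin (d + 1) → (Vert d → Fin κ) → ℕ :=
      fun a ω => psi κ k (ev c (ω (wnb u a))) (Nmax θ T (wnb u a) ω) with hY
    have hYd : ∀ a ∈ ch u, LDep (wnb u a) (Y a) := fun a _ =>
      (LDep.pair (LDep.self (wnb u a)) (Nmax_ldep θ T (wnb u a))).comp
        fun p => psi κ k (ev c p.1) p.2
    obtain ⟨K, hK1, hK2, hK3, -⟩ := exists_sep u Y hYd
    have hYD : Dep ((ch u).biUnion K) (fun ω => ∑ a ∈ ch u, Y a ω) := by
      intro ω ω' hω
      exact Finset.sum_congr rfl fun a ha => hK2 a ha ω ω' fun v hv =>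
        hω v (Finset.mem_biUnion.2 ⟨a, ha, hv⟩)
    have hsub : evt θ (T + 1) u c k m ⊆
        {ω : Vert d → Fin κ | ω u = c} ∩ {ω | L ≤ ∑ a ∈ ch u, Y a ω} := by
      rintro ω ⟨hc, g, hg1, hg2⟩
      exact ⟨hc, event_imp hκ hθ hc hg1 hg2⟩
    have hdis : Disjoint {u} ((ch u).biUnion K) := by
      rw [Finset.disjoint_singleton_left, Finset.mem_biUnion]
      rintro ⟨a, ha, hv⟩
      exact hK3 a ha hv
    have h2 := law_inter_of_dep hdis (A := {ω : Vert d → Fin κ | ω u = c})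
      (B := {ω | L ≤ ∑ a ∈ ch u, Y a ω})
      ((Dep.coord (Finset.mem_singleton_self u)).comp fun b => b = c)
      (hYD.comp fun n => L ≤ n)
    -- Markov
    have h3 : x ^ L * (law (Vert d) κ).real {ω | L ≤ ∑ a ∈ ch u, Y a ω} ≤
        ∫ ω, x ^ (∑ a ∈ ch u, Y a ω) ∂law (Vert d) κ := by
      have h4 := mul_meas_ge_le_integral_of_nonneg (μ := law (Vert d) κ)
        (f := fun ω => x ^ (∑ a ∈ ch u, Y a ω))
        (Filter.Eventually.of_forall fun ω => by positivity)
        (hYD.comp fun n => x ^ n).integrable (x ^ L)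
      have h5 : {ω : Vert d → Fin κ | x ^ L ≤ x ^ (∑ a ∈ ch u, Y a ω)} =
          {ω | L ≤ ∑ a ∈ ch u, Y a ω} := by
        ext ω
        simp only [mem_ofPred_eq]
        exact pow_le_pow_iff_right₀ hx
      rw [h5] at h4
      exact h4
    have h6 : ∫ ω, x ^ (∑ a ∈ ch u, Y a ω) ∂law (Vert d) κ ≤
        Real.exp (d * Psi x ρ / κ) ^ k := by
      have e1 : ∀ ω : Vert d → Fin κ, x ^ (∑ a ∈ ch u, Y a ω) = ∏ a ∈ ch u, x ^ Y a ω :=
        fun ω => (Finset.prod_pow_eq_pow_sum _ _ _).symm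
      simp_rw [e1]
      rw [integral_prod_of_dep (ch u) K hK1 _ (fun a ha => (hK2 a ha).comp fun n => x ^ n)]
      calc ∏ a ∈ ch u, ∫ ω, x ^ Y a ω ∂law (Vert d) κ
          ≤ ∏ _a ∈ ch u, Real.exp (k * Psi x ρ / κ) := by
            refine Finset.prod_le_prod (fun a _ => integral_nonneg fun ω => by positivity)
              fun a ha => ?_
            exact int_child (by omega) hk hx h0 h1
              (Nmax_prob hx h0 h1 (fun b k m => ih _ (child_ne_root ha) b k m))
        _ = Real.exp (d * Psi x ρ / κ) ^ k := by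
            rw [Finset.prod_const, card_ch hu, ← Real.exp_nat_mul, ← Real.exp_nat_mul]
            congr 1
            ring
    have h7 : Real.exp (d * Psi x ρ / κ) ^ k ≤ (ρ * x ^ (θ - 1)) ^ k :=
      pow_le_pow_left₀ (Real.exp_pos _).le hcrit k
    have h8 : (law (Vert d) κ).real {ω | L ≤ ∑ a ∈ ch u, Y a ω} ≤ ρ ^ k / x ^ m := by
      rw [le_div_iff₀ (by positivity)]
      have hxk : 0 < x ^ ((θ - 1) * k) := by positivity
      have h9 : x ^ L = x ^ ((θ - 1) * k) * x ^ m := by rw [hL, pow_add]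
      have h10 : (ρ * x ^ (θ - 1)) ^ k = x ^ ((θ - 1) * k) * ρ ^ k := by
        rw [mul_pow, ← pow_mul]
        ring
      have h11 := h3.trans (h6.trans h7)
      rw [h9, h10] at h11
      have h12 : x ^ ((θ - 1) * k) * ((law (Vert d) κ).real {ω | L ≤ ∑ a ∈ ch u, Y a ω} * x ^ m) ≤
          x ^ ((θ - 1) * k) * ρ ^ k := by
        calc _ = x ^ ((θ - 1) * k) * x ^ m *
            (law (Vert d) κ).real {ω | L ≤ ∑ a ∈ ch u, Y a ω} := by ring
          _ ≤ _ := h11
      exact le_of_mul_le_mul_left h12 hxk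
    calc (law (Vert d) κ).real (evt θ (T + 1) u c k m)
        ≤ (law (Vert d) κ).real ({ω : Vert d → Fin κ | ω u = c} ∩
            {ω | L ≤ ∑ a ∈ ch u, Y a ω}) := measureReal_mono hsub
      _ = 1 / κ * (law (Vert d) κ).real {ω | L ≤ ∑ a ∈ ch u, Y a ω} := by
          rw [h2, law_coord_eq]
      _ ≤ 1 / κ * (ρ ^ k / x ^ m) := mul_le_mul_of_nonneg_left h8 (by positivity)
      _ = ρ ^ k / x ^ m / κ := by ring

end Pool.Agent.Helper39.CC
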