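import Pool.Agent.Helper39.CC.Final

/-!
# Fixation of the cyclic cellular automaton up to a second-order term
-/

open MeasureTheory Set ProbabilityTheory
open Pool.Agent.Helper94.CCA Pool.Agent.Helper99.CA

namespace Pool.Agent.Helper39.CC

lemma Psi_le {t r : ℝ} (ht : 0 ≤ t) (h0 : 0 < r) (h1 : r ≤ 1 / 64) :
    Psi (1 + t) r ≤ t + r * (21 / 20 * t + 21 / 10) := by
  unfold Psi
  have hr : 0 < 1 - r := by linarith
  have e1 : r / (1 - r) ^ 2 ≤ 21 / 20 * r := by
    rw [div_le_iff₀ (by positivity)]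
    have : 1 ≤ 21 / 20 * (1 - r) ^ 2 := by nlinarith
    nlinarith
  have e2 : (1 / (1 - r) ^ 2 - 1) / (1 - r) ≤ 21 / 10 * r := by
    rw [div_le_iff₀ hr, sub_le_iff_le_add, div_le_iff₀ (by positivity)]
    have h3 : (21 / 10 * r * (1 - r) + 1) * (1 - r) ^ 2 - 1 =
        r * (21 / 10 * (1 - r) ^ 3 - 2 + r) := by ring
    have h4 : (63 / 64 : ℝ) ^ 3 ≤ (1 - r) ^ 3 := pow_le_pow_left₀ (by norm_num) (by linarith) 3
    have h5 : 0 ≤ 21 / 10 * (1 - r) ^ 3 - 2 + r := by
      have : (95 / 100 : ℝ) ≤ (63 / 64 : ℝ) ^ 3 := by norm_num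
      nlinarith
    have := mul_nonneg h0.le h5
    linarith
  have e3 : (1 + t - 1) * (1 + r / (1 - r) ^ 2) ≤ t * (1 + 21 / 20 * r) := by
    rw [add_sub_cancel_left]
    exact mul_le_mul_of_nonneg_left (by linarith) ht
  nlinarith

/-- Fixation of the CCA for `d ≤ κ (θ - (5/2) √(θ log θ))`. -/
theorem cca_fix_second {V : Type*} (G : SimpleGraph V) (hG : G.IsTree) (d : ℕ) (hd : 1 ≤ d)
    (hdeg : ∀ v, (G.neighborSet v).ncard = d + 1) (κ θ : ℕ) [NeZero κ] (hκ : 3 ≤ κ) (hθ : 2 ≤ θ)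
    (h : (d : ℝ) ≤ κ * (θ - 5 / 2 * √(θ * Real.log θ))) (ρ : V) :
    law V κ {ω | Fluct (ccaStep G κ θ) ω ρ} = 0 := by
  have hκ0 : (0 : ℝ) < κ := by exact_mod_cast (by omega : 0 < κ)
  have hd0 : (0 : ℝ) < d := by exact_mod_cast hd
  obtain ⟨T, hT⟩ : ∃ T : ℝ, T = θ := ⟨_, rfl⟩
  rw [← hT] at h
  have hT2 : 2 ≤ T := by rw [hT]; exact_mod_cast hθ
  have hT0 : 0 < T := by linarith
  set L := Real.log T with hL
  have hl2 := Real.log_two_gt_d9
  have hl2' := Real.log_two_lt_d9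
  have hL1 : Real.log 2 ≤ L := Real.log_le_log (by norm_num) hT2
  have hL0 : 0 < L := by linarith
  set s := √(T * L) / T with hs
  have hs0 : 0 < s := by
    rw [hs]
    exact div_pos (Real.sqrt_pos.2 (mul_pos hT0 hL0)) hT0
  have hsT : √(T * L) = T * s := by rw [hs]; field_simp
  have hsq : T * s ^ 2 = L := by
    rw [hs, div_pow, Real.sq_sqrt (mul_pos hT0 hL0).le]
    field_simp
  rw [hsT] at h
  have hpos : 0 < 1 - 5 / 2 * s := by
    by_contra hcon
    have h1 : T - 5 / 2 * (T * s) ≤ 0 := by nlinarith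
    have h2 : (κ : ℝ) * (T - 5 / 2 * (T * s)) ≤ 0 :=
      mul_nonpos_of_nonneg_of_nonpos hκ0.le h1
    linarith
  have hs4 : s < 2 / 5 := by linarith
  have hLT : 25 / 4 * L < T := by
    rw [← hsq]
    have : s ^ 2 < 4 / 25 := by nlinarith
    nlinarith
  -- `T ≥ 8`
  have hT4 : 4 ≤ T := by linarith
  have hL4 : 2 * Real.log 2 ≤ L := by
    have h1 : Real.log 4 ≤ L := Real.log_le_log (by norm_num) hT4
    have h2 : Real.log 4 = 2 * Real.log 2 := by
      rw [show (4 : ℝ) = 2 ^ 2 by norm_num, Real.log_pow]; norm_num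
    linarith
  have hT8 : 8 ≤ T := by linarith
  have hL8 : 3 * Real.log 2 ≤ L := by
    have h1 : Real.log 8 ≤ L := Real.log_le_log (by norm_num) hT8
    have h2 : Real.log 8 = 3 * Real.log 2 := by
      rw [show (8 : ℝ) = 2 ^ 3 by norm_num, Real.log_pow]; norm_num
    linarith
  set t := 7 / 5 * s with ht
  have ht0 : 0 < t := by rw [ht]; linarith
  set r := 1 / (8 * T) with hr
  have hr0 : 0 < r := by rw [hr]; positivity
  have hr1 : r ≤ 1 / 64 := by
    rw [hr]
    apply one_div_le_one_div_of_le (by norm_num)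
    linarith
  have hTr : T * r = 1 / 8 := by rw [hr]; field_simp
  refine cca_fix G hG d hd hdeg κ θ hκ (by omega) (x := 1 + t) (r := r) (by linarith) hr0
    (by linarith) ?_ ρ
  have hPsi0 : 0 ≤ Psi (1 + t) r := by
    rw [Psi_eq (by linarith)]
    have h1 := Bc_nonneg (x := 1 + t) (by linarith) hr0 (by linarith)
    have h2 := C_nonneg hr0 (by linarith)
    have h3 : 0 ≤ (1 + t) * Bc (1 + t) r := mul_nonneg (by linarith) h1
    have h4 : (1 + t) * (1 + Bc (1 + t) r) = 1 + t + (1 + t) * Bc (1 + t) r := by ring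
    linarith
  have hPsi := Psi_le ht0.le hr0 hr1
  -- left side
  have h1 : (d : ℝ) * Psi (1 + t) r / κ ≤ T * (1 - 5 / 2 * s) * Psi (1 + t) r := by
    rw [div_le_iff₀ hκ0]
    have e1 := mul_le_mul_of_nonneg_right h hPsi0
    have e2 : (κ : ℝ) * (T - 5 / 2 * (T * s)) * Psi (1 + t) r =
        T * (1 - 5 / 2 * s) * Psi (1 + t) r * κ := by ring
    linarith
  have h2 : T * (1 - 5 / 2 * s) * Psi (1 + t) r ≤
      T * t - 7 / 2 * L + 1 / 8 * (21 / 20 * t + 21 / 10) := by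
    have e1 : 0 < T * (1 - 5 / 2 * s) := mul_pos hT0 hpos
    have e2 := mul_le_mul_of_nonneg_left hPsi e1.le
    have e3 : T * (1 - 5 / 2 * s) * (t + r * (21 / 20 * t + 21 / 10)) =
        T * t - 7 / 2 * (T * s ^ 2) + (1 - 5 / 2 * s) * (T * r) * (21 / 20 * t + 21 / 10) := by
      rw [ht]; ring
    rw [e3, hsq, hTr] at e2
    have e4 : (1 - 5 / 2 * s) * (1 / 8) * (21 / 20 * t + 21 / 10) ≤
        1 / 8 * (21 / 20 * t + 21 / 10) := by
      apply mul_le_mul_of_nonneg_right _ (by linarith)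
      linarith
    linarith
  -- right side
  have h3 : t - t ^ 2 / 2 ≤ Real.log (1 + t) := by
    have e1 := Real.le_log_one_add_of_nonneg ht0.le
    refine le_trans ?_ e1
    rw [le_div_iff₀ (by linarith)]
    have e2 : (t - t ^ 2 / 2) * (t + 2) = 2 * t - t ^ 3 / 2 := by ring
    rw [e2]
    have e3 := pow_pos ht0 3
    linarith
  have h4 : T * t - t - 49 / 50 * L ≤ (T - 1) * Real.log (1 + t) := by
    have e1 := mul_le_mul_of_nonneg_left h3 (by linarith : 0 ≤ T - 1)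
    have e2 : (T - 1) * (t - t ^ 2 / 2) = T * t - t - 49 / 50 * (T * s ^ 2) + t ^ 2 / 2 := by
      rw [ht]; ring
    rw [e2, hsq] at e1
    have e3 := sq_nonneg t
    linarith
  have h5 : Real.log r = -(3 * Real.log 2 + L) := by
    rw [hr, one_div, Real.log_inv, Real.log_mul (by norm_num) hT0.ne']
    rw [show (8 : ℝ) = 2 ^ 3 by norm_num, Real.log_pow, ← hL]
    norm_num
  have h6 : (d : ℝ) * Psi (1 + t) r / κ ≤ Real.log r + (T - 1) * Real.log (1 + t) := by
    rw [h5]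
    have : t ≤ 14 / 25 := by rw [ht]; linarith
    linarith
  have h7 : r * (1 + t) ^ (θ - 1) = Real.exp (Real.log r + (T - 1) * Real.log (1 + t)) := by
    rw [Real.exp_add, Real.exp_log hr0]
    congr 1
    have e1 : T - 1 = ((θ - 1 : ℕ) : ℝ) := by
      rw [Nat.cast_sub (by omega), hT]
      simp
    rw [e1, Real.exp_nat_mul, Real.exp_log (by linarith)]
  rw [h7]
  exact Real.exp_le_exp.2 h6

end Pool.Agent.Helper39.CC
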