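import Pool.Agent.Helper39.CC.Hist

/-!
# The moves of a vertex and the help of its children
-/

open MeasureTheory Set ProbabilityTheory
open Pool.Agent.Helper94.CCA Pool.Agent.Helper99.CA

namespace Pool.Agent.Helper39.CC

variable {d κ : ℕ} [NeZero κ]

lemma cM_eq (y g : ℕ → Fin κ) (t : ℕ) : cM y t = cH y g t + cU y g t := by
  induction t with
  | zero => simp [cM, cH, cU]
  | succ t ih =>
    rw [cM_succ, cH_succ, cU_succ, ih]
    by_cases h : y (t + 1) ≠ y t
    · by_cases h' : g t = y t + 1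
      · rw [if_pos h, if_pos ⟨h, h'⟩, if_neg (fun h2 => h2.2 h')]
        ring
      · rw [if_pos h, if_neg (fun h2 => h' h2.2), if_pos ⟨h, h'⟩]
        ring
    · rw [if_neg h, if_neg (fun h2 => h h2.1), if_neg (fun h2 => h h2.1)]
      ring

variable {θ : ℕ} {ω : Vert d → Fin κ}

lemma sum_helps (T : ℕ) (u : Vert d) (g : ℕ → Fin κ) (t : ℕ) (ht : t ≤ T + 1) :
    θ * cM (hist θ ω (T + 1) u g) t ≤ cH (hist θ ω (T + 1) u g) g t +
      ∑ a ∈ ch u, cH (hist θ ω (T + 1) u g)
        (hist θ ω T (wnb u a) (hist θ ω (T + 1) u g)) t := by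
  set y := hist θ ω (T + 1) u g with hy
  induction t with
  | zero => simp [cM]
  | succ t ih =>
    have ih' := ih (by omega)
    have hs := hist_step (θ := θ) (ω := ω) (t := t) (T := T + 1) (T' := T) (by omega) (by omega)
      u g
    rw [← hy] at hs
    simp only [cM_succ, cH_succ, Finset.sum_add_distrib, mul_add]
    by_cases h : y (t + 1) ≠ y t
    · rw [if_pos h, mul_one]
      have h1 : θ ≤ (if g t = y t + 1 then 1 else 0) +
          ((ch u).filter fun a => hist θ ω T (wnb u a) y t = y t + 1).card := by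
        by_contra hcon
        apply h
        rw [hs]
        unfold nxt
        rw [if_neg hcon]
      have h2 : (if y (t + 1) ≠ y t ∧ g t = y t + 1 then 1 else 0) =
          (if g t = y t + 1 then 1 else 0) := by
        simp [h]
      have h3 : ∑ a ∈ ch u, (if y (t + 1) ≠ y t ∧ hist θ ω T (wnb u a) y t = y t + 1
          then 1 else 0) =
          ((ch u).filter fun a => hist θ ω T (wnb u a) y t = y t + 1).card := by
        rw [Finset.card_filter]
        refine Finset.sum_congr rfl fun a _ => ?_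
        simp [h]
      rw [h2, h3]
      omega
    · rw [if_neg h, mul_zero, add_zero]
      omega

/-- the largest number of moves of `w` until `T` not helped by the parent, over all trajectories
of the parent -/
noncomputable def Nmax (θ : ℕ) (T : ℕ) (w : Vert d) (ω : Vert d → Fin κ) : ℕ := by
  classical exact Nat.findGreatest (fun n => ∃ g, n ≤ cU (hist θ ω T w g) g T) T

lemma cU_le (y g : ℕ → Fin κ) (t : ℕ) : cU y g t ≤ t := (cU_le_cM y g t).trans (cM_le y t)

lemma cU_le_Nmax (T : ℕ) (w : Vert d) (g : ℕ → Fin κ) :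
    cU (hist θ ω T w g) g T ≤ Nmax θ T w ω := by
  classical
  unfold Nmax
  exact Nat.le_findGreatest (cU_le _ _ _) ⟨g, le_refl _⟩

lemma Nmax_le (T : ℕ) (w : Vert d) : Nmax θ T w ω ≤ T := by
  classical
  unfold Nmax
  exact Nat.findGreatest_le T

lemma le_Nmax_iff {n T : ℕ} (w : Vert d) :
    n ≤ Nmax θ T w ω ↔ ∃ g, n ≤ cU (hist θ ω T w g) g T := by
  classical
  constructor
  · intro h
    have h1 : ∃ g, Nmax θ T w ω ≤ cU (hist θ ω T w g) g T := by
      unfold Nmax
      exact Nat.findGreatest_spec (P := fun n => ∃ g, n ≤ cU (hist θ ω T w g) g T) (m := 0)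
        (Nat.zero_le T) ⟨fun _ => 0, Nat.zero_le _⟩
    obtain ⟨g, hg⟩ := h1
    exact ⟨g, h.trans hg⟩
  · rintro ⟨g, hg⟩
    exact hg.trans (cU_le_Nmax T w g)

/-- the initial relative position of a child, minus one -/
def ev (c b : Fin κ) : ℕ := (b - c - 1 : Fin κ).val

lemma ev_lt (c b : Fin κ) : ev c b < κ := (b - c - 1 : Fin κ).2

lemma ev_modEq (hκ : 2 ≤ κ) (c b : Fin κ) :
    (b.val : ℤ) - c.val ≡ ((ev c b + 1 : ℕ) : ℤ) [ZMOD κ] := by
  unfold ev
  set e : Fin κ := b - c - 1 with he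
  have h1 : b = (c + e) + 1 := by rw [he]; abel
  have h2 := val_add_one hκ (c + e)
  have h3 : ((c + e : Fin κ).val : ℤ) ≡ c.val + e.val [ZMOD κ] := by
    rw [Fin.val_add]
    push_cast
    exact Int.mod_modEq _ _
  rw [← h1] at h2
  have h4 := (h2.trans (h3.add_right 1)).sub_right (c.val : ℤ)
  refine h4.trans ?_
  push_cast
  have : (c.val : ℤ) + e.val + 1 - c.val = e.val + 1 := by ring
  rw [this]

/-- The numbers of the helped moves are bounded in terms of the initial colours of the children and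
of their moves not helped by `u`. -/
theorem event_imp (hκ : 3 ≤ κ) (hθ : 1 ≤ θ) {T k m : ℕ} {u : Vert d} {c : Fin κ}
    (hc : ω u = c) {g : ℕ → Fin κ} (hk : cM (hist θ ω (T + 1) u g) (T + 1) = k)
    (hm : m ≤ cU (hist θ ω (T + 1) u g) g (T + 1)) :
    (θ - 1) * k + m ≤ ∑ a ∈ ch u, psi κ k (ev c (ω (wnb u a))) (Nmax θ T (wnb u a) ω) := by
  have h1 := sum_helps (θ := θ) (ω := ω) T u g (T + 1) (le_refl _)
  set y := hist θ ω (T + 1) u g with hy
  have h2 : ∑ a ∈ ch u, cH y (hist θ ω T (wnb u a) y) (T + 1) ≤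
      ∑ a ∈ ch u, psi κ k (ev c (ω (wnb u a))) (Nmax θ T (wnb u a) ω) := by
    refine Finset.sum_le_sum fun a _ => ?_
    have h3 := helps_le hκ (y := y) (z := hist θ ω T (wnb u a) y) (e := ev c (ω (wnb u a)))
      (by rw [hy]; exact hist_legal _ _ _) (hist_legal _ _ _) (ev_lt _ _)
      (by rw [hist_zero, hy, hist_zero, hc]; exact ev_modEq (by omega) _ _) (T + 1)
    rw [hk] at h3
    refine h3.trans (psi_mono _ _ _ ?_)
    have h4 : cU (hist θ ω T (wnb u a) y) y (T + 1) = cU (hist θ ω T (wnb u a) y) y T := by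
      rw [cU_succ, hist_const (Nat.le_succ T), if_neg (fun h => h.1 rfl), add_zero]
    rw [h4]
    exact cU_le_Nmax T (wnb u a) y
  have h5 := cM_eq y g (T + 1)
  rw [hk] at h5 h1
  have h6 : (θ - 1) * k + k = θ * k := by
    rw [← Nat.succ_mul, Nat.succ_eq_add_one, Nat.sub_add_cancel hθ]
  omega

end Pool.Agent.Helper39.CC
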